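import Pool.Agent.Work.MP_b0293a_gt.Neg.Defs

/-!
# Cardinality of the point set

`card (Mset m) ≤ 2^m (2 R + 1)^(m (m+1)) 2`, `R = rr m = 2^(m (2 m + 5))`, and `2 R + 1 ≤ 2^(m(2m+5)+2)`;
so `card ≤ 2^(m + 1 + m (m+1) (m (2m+5) + 2)) ≤ 2^(20 m^4)` for `m ≥ 1`, and `log 2 ≤ 1`.
`card ≥ 3`: the vectors `0`, `cyl 0 w 0`, `2 • cyl 0 w 0` are distinct (value at `w`), or one
coefficient `c 0 0 ∈ {0, 1, 2}`.
-/

set_option autoImplicit false

namespace Pool.PolyDim

open Finset

private theorem card_bound (m : ℕ) (hm : 1 ≤ m) : (Mset m).card ≤ 2 ^ (20 * m ^ 4) := by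
  classical
  have h1 : (Mset m).card ≤ 2 ^ m * (((2 * rr m + 1) ^ m) ^ (m + 1) * 2) := by
    unfold Mset
    refine Finset.card_image_le.trans ?_
    rw [Finset.card_product, Finset.card_product, Finset.card_univ, Finset.card_range,
      Fintype.card_piFinset, Fintype.card_fun, Fintype.card_bool, Fintype.card_fin]
    refine Nat.mul_le_mul_left _ (Nat.mul_le_mul_right _ ?_)
    rw [Finset.prod_const, Finset.card_univ, Fintype.card_fin, Fintype.card_piFinset,
      Finset.prod_const, Finset.card_univ, Fintype.card_fin, Int.card_Icc]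
    refine Nat.pow_le_pow_left (Nat.pow_le_pow_left ?_ _) _
    omega
  refine h1.trans ?_
  have h2 : 2 * rr m + 1 ≤ 2 ^ (m * (2 * m + 5) + 2) := by
    unfold rr
    have h3 : 1 ≤ 2 ^ (m * (2 * m + 5)) := Nat.one_le_two_pow
    rw [pow_add]
    omega
  calc 2 ^ m * (((2 * rr m + 1) ^ m) ^ (m + 1) * 2)
      ≤ 2 ^ m * (((2 ^ (m * (2 * m + 5) + 2)) ^ m) ^ (m + 1) * 2) :=
        Nat.mul_le_mul_left _ (Nat.mul_le_mul_right _
          (Nat.pow_le_pow_left (Nat.pow_le_pow_left h2 _) _))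
    _ = 2 ^ (m + ((m * (2 * m + 5) + 2) * m * (m + 1) + 1)) := by
        rw [← pow_mul, ← pow_mul, ← pow_succ, ← pow_add, mul_assoc (m * (2 * m + 5) + 2) m (m + 1)]
    _ ≤ 2 ^ (20 * m ^ 4) := by
        refine Nat.pow_le_pow_right (by norm_num) ?_
        obtain ⟨n, rfl⟩ := Nat.exists_eq_add_of_le hm
        nlinarith [Nat.zero_le n, Nat.zero_le (n ^ 2), Nat.zero_le (n ^ 3), Nat.zero_le (n ^ 4)]

theorem log_card_le {m : ℕ} (hm : 1 ≤ m) : Real.log ((Mset m).card : ℝ) ≤ 20 * (m : ℝ) ^ 4 := by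
  have h1 := card_bound m hm
  rcases Nat.eq_zero_or_pos (Mset m).card with h0 | h0
  · rw [h0, Nat.cast_zero, Real.log_zero]
    positivity
  · have h2 : Real.log ((Mset m).card : ℝ) ≤ Real.log ((2 : ℝ) ^ (20 * m ^ 4)) := by
      refine Real.log_le_log (by exact_mod_cast h0) ?_
      exact_mod_cast h1
    refine h2.trans ?_
    rw [Real.log_pow]
    have h3 : Real.log 2 ≤ 1 := by
      have := Real.log_two_lt_d9
      linarith
    have h4 : (0 : ℝ) ≤ ((20 * m ^ 4 : ℕ) : ℝ) := by positivity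
    calc ((20 * m ^ 4 : ℕ) : ℝ) * Real.log 2 ≤ ((20 * m ^ 4 : ℕ) : ℝ) * 1 :=
          mul_le_mul_of_nonneg_left h3 h4
      _ = 20 * (m : ℝ) ^ 4 := by push_cast; ring

theorem three_le_card {m : ℕ} (hm : 1 ≤ m) : 3 ≤ (Mset m).card := by
  classical
  set w0 : Cub m := fun _ => false with hw0
  set l0 : Fin m := ⟨0, hm⟩ with hl0
  set c : ℤ → Fin (m + 1) → Fin m → ℤ := fun a i l => if i = 0 then (if l = l0 then a else 0) else 0
    with hc
  have hval : ∀ a : ℤ, pt w0 (c a) 0 w0 = a := by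
    intro a
    unfold pt
    rw [Pi.add_apply, Finset.sum_apply]
    have h1 : ∀ i : Fin (m + 1), (∑ l, (c a i l : ℝ) • cyl (i : ℕ) w0 l) w0 =
        if i = 0 then (a : ℝ) else 0 := by
      intro i
      rw [Finset.sum_apply]
      have h2 : ∀ l : Fin m, ((c a i l : ℝ) • cyl (i : ℕ) w0 l) w0 =
          if l = l0 then (if i = 0 then (a : ℝ) else 0) else 0 := by
        intro l
        have h3 : cyl (i : ℕ) w0 l w0 = 1 := by
          unfold cyl
          have h4 : Agr (i : ℕ) w0 w0 := fun _ _ => rfl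
          rw [if_pos h4]
          simp [rad, hw0]
        rw [Pi.smul_apply, h3, smul_eq_mul, mul_one, hc]
        by_cases hi : i = 0 <;> by_cases hl : l = l0 <;> simp [hi, hl]
      rw [Finset.sum_congr rfl fun l _ => h2 l, Finset.sum_ite_eq' Finset.univ l0,
        if_pos (Finset.mem_univ l0)]
    rw [Finset.sum_congr rfl fun i _ => h1 i, Finset.sum_ite_eq' Finset.univ (0 : Fin (m + 1)),
      if_pos (Finset.mem_univ _)]
    simp
  have h3 : (Finset.Icc (-1 : ℤ) 1).card = 3 := by decide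
  rw [← h3]
  refine Finset.card_le_card_of_injOn (fun a => pt w0 (c a) 0) ?_ ?_
  · intro a ha
    have ha' := Finset.mem_Icc.mp (Finset.mem_coe.mp ha)
    have hR : (1 : ℤ) ≤ (rr m : ℤ) := by
      have : 1 ≤ rr m := Nat.one_le_two_pow
      exact_mod_cast this
    rw [Finset.mem_coe]
    unfold Mset
    refine Finset.mem_image.mpr ⟨(w0, c a, 0), ?_, rfl⟩
    refine Finset.mem_product.mpr ⟨Finset.mem_univ _, Finset.mem_product.mpr ⟨?_, ?_⟩⟩
    · refine Fintype.mem_piFinset.mpr fun i => Fintype.mem_piFinset.mpr fun l => ?_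
      rw [Finset.mem_Icc, hc]
      by_cases hi : i = 0 <;> by_cases hl : l = l0 <;> simp only [hi, hl, if_true, if_false] <;>
        constructor <;> omega
    · simp
  · intro a _ b _ hab
    have h4 : pt w0 (c a) 0 w0 = pt w0 (c b) 0 w0 := congrFun hab w0
    rw [hval, hval] at h4
    exact_mod_cast h4

end Pool.PolyDim
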