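import Pool.Agent.Work.MP_b0293a_gt.Neg.Defs

/-!
# Elementary facts about the cube and the vectors `cyl`, `uu`, `ee`, `dlt`

`Agr j w w'` says that `w'` agrees with `w` on the first `j` bits; there are `2^(m-j)` such `w'`.
`flp j w` flips the bit `j`; so `Agr j w` is the disjoint union of `Agr (j+1) w` and
`Agr (j+1) (flp j w)`.
-/

set_option autoImplicit false

namespace Pool.PolyDim

open Finset

theorem rad_abs {m : ℕ} (l : Fin m) (w : Cub m) : |rad l w| = 1 := by
  unfold rad
  split_ifs <;> simp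

theorem rad_mul_self {m : ℕ} (l : Fin m) (w : Cub m) : rad l w * rad l w = 1 := by
  unfold rad
  split_ifs <;> simp

theorem nrm_nonneg {m : ℕ} (v : Vec m) : 0 ≤ nrm v :=
  Finset.sum_nonneg fun _ _ => abs_nonneg _

theorem nrm_neg {m : ℕ} (v : Vec m) : nrm (-v) = nrm v := by
  unfold nrm
  refine Finset.sum_congr rfl fun w _ => ?_
  rw [Pi.neg_apply, abs_neg]

theorem nrm_add_le {m : ℕ} (v w : Vec m) : nrm (v + w) ≤ nrm v + nrm w := by
  unfold nrm
  rw [← Finset.sum_add_distrib]
  exact Finset.sum_le_sum fun x _ => abs_add_le _ _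

theorem nrm_smul {m : ℕ} (c : ℝ) (v : Vec m) : nrm (c • v) = |c| * nrm v := by
  unfold nrm
  rw [Finset.mul_sum]
  refine Finset.sum_congr rfl fun w _ => ?_
  rw [Pi.smul_apply, smul_eq_mul, abs_mul]

theorem nrm_dlt {m : ℕ} (w : Cub m) : nrm (dlt w) = 1 := by
  unfold nrm dlt
  rw [Finset.sum_eq_single w]
  · simp
  · intro b _ hb
    simp [hb]
  · simp

private theorem cube_agr_succ {m : ℕ} (w w' : Cub m) (j : Fin m) :
    Agr (j + 1) w w' ↔ Agr j w w' ∧ w' j = w j := by
  unfold Agr
  constructor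
  · intro h
    exact ⟨fun i hi => h i (by omega), h j (by omega)⟩
  · rintro ⟨h1, h2⟩ i hi
    by_cases h3 : (i : ℕ) < j
    · exact h1 i h3
    · have h4 : i = j := Fin.ext (by omega)
      rw [h4]
      exact h2

private theorem cube_agr_flp {m : ℕ} (w w' : Cub m) (j : Fin m) :
    Agr (j + 1) (flp j w) w' ↔ Agr j w w' ∧ w' j = !(w j) := by
  unfold Agr flp
  constructor
  · intro h
    refine ⟨fun i hi => ?_, ?_⟩
    · have h1 := h i (by omega)
      have h2 : i ≠ j := fun h3 => by rw [h3] at hi; omega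
      rw [Function.update_of_ne h2] at h1
      exact h1
    · have h1 := h j (by omega)
      rw [Function.update_self] at h1
      exact h1
  · rintro ⟨h1, h2⟩ i hi
    by_cases h3 : (i : ℕ) < j
    · have h4 : i ≠ j := fun h5 => by rw [h5] at h3; omega
      rw [Function.update_of_ne h4]
      exact h1 i h3
    · have h4 : i = j := Fin.ext (by omega)
      subst h4
      rw [Function.update_self]
      exact h2

private theorem cube_card {m j : ℕ} (hj : j ≤ m) (w : Cub m) :
    #(univ.filter fun w' : Cub m => Agr j w w') = 2 ^ (m - j) := by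
  induction j with
  | zero =>
    have h1 : (univ.filter fun w' : Cub m => Agr 0 w w') = univ := by
      refine filter_true_of_mem fun w' _ i hi => ?_
      omega
    rw [h1]
    simp
  | succ j ih =>
    have ih' := ih (by omega)
    have hjm : j < m := by omega
    have h1 : (univ.filter fun w' : Cub m => Agr j w w') =
        (univ.filter fun w' : Cub m => Agr (j + 1) w w') ∪
        (univ.filter fun w' : Cub m => Agr (j + 1) (flp ⟨j, hjm⟩ w) w') := by
      ext w'
      rw [mem_union, mem_filter, mem_filter, mem_filter]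
      have e1 := cube_agr_succ w w' ⟨j, hjm⟩
      have e2 := cube_agr_flp w w' ⟨j, hjm⟩
      simp only at e1 e2
      rw [e1, e2]
      simp only [mem_univ, true_and]
      constructor
      · intro h
        by_cases h3 : w' ⟨j, hjm⟩ = w ⟨j, hjm⟩
        · exact Or.inl ⟨h, h3⟩
        · exact Or.inr ⟨h, by cases h4 : w' ⟨j, hjm⟩ <;> cases h5 : w ⟨j, hjm⟩ <;> simp_all⟩
      · rintro (h | h)
        · exact h.1
        · exact h.1
    have h2 : Disjoint (univ.filter fun w' : Cub m => Agr (j + 1) w w')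
        (univ.filter fun w' : Cub m => Agr (j + 1) (flp ⟨j, hjm⟩ w) w') := by
      rw [disjoint_left]
      intro w' h3 h4
      rw [mem_filter] at h3 h4
      have e1 := cube_agr_succ w w' ⟨j, hjm⟩
      have e2 := cube_agr_flp w w' ⟨j, hjm⟩
      simp only at e1 e2
      rw [e1] at h3
      rw [e2] at h4
      have h5 := h3.2.2
      have h6 := h4.2.2
      rw [h5] at h6
      have key : ∀ b : Bool, b ≠ !b := by decide
      exact key _ h6
    have h3 : #(univ.filter fun w' : Cub m => Agr (j + 1) (flp ⟨j, hjm⟩ w) w') =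
        #(univ.filter fun w' : Cub m => Agr (j + 1) w w') := by
      refine Finset.card_nbij' (flp ⟨j, hjm⟩) (flp ⟨j, hjm⟩) ?_ ?_ ?_ ?_
      · intro a ha
        have ha := (mem_filter.1 (mem_coe.1 ha)).2
        refine mem_coe.2 (mem_filter.2 ⟨mem_univ _, fun i hi => ?_⟩)
        have h5 := ha i hi
        unfold flp at h5 ⊢
        by_cases h6 : i = ⟨j, hjm⟩
        · subst h6
          rw [Function.update_self] at h5 ⊢
          rw [h5, Bool.not_not]
        · rw [Function.update_of_ne h6] at h5 ⊢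
          exact h5
      · intro a ha
        have ha := (mem_filter.1 (mem_coe.1 ha)).2
        refine mem_coe.2 (mem_filter.2 ⟨mem_univ _, fun i hi => ?_⟩)
        have h5 := ha i hi
        unfold flp
        by_cases h6 : i = ⟨j, hjm⟩
        · subst h6
          rw [Function.update_self, Function.update_self, h5]
        · rw [Function.update_of_ne h6, Function.update_of_ne h6]
          exact h5
      · intro a _
        unfold flp
        simp
      · intro a _
        unfold flp
        simp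
    rw [h1, card_union_of_disjoint h2, h3] at ih'
    have h4 : 2 ^ (m - j) = 2 * 2 ^ (m - (j + 1)) := by
      have : m - j = (m - (j + 1)) + 1 := by omega
      rw [this, pow_succ]
      ring
    omega

/-- `|r_l 1_{U_j}| = 2^(m-j)` -/
theorem nrm_cyl {m j : ℕ} (hj : j ≤ m) (w : Cub m) (l : Fin m) :
    nrm (cyl j w l) = 2 ^ (m - j) := by
  have h1 : nrm (cyl j w l) = ∑ w' : Cub m, if Agr j w w' then (1 : ℝ) else 0 := by
    unfold nrm cyl
    refine Finset.sum_congr rfl fun w' _ => ?_
    split_ifs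
    · exact rad_abs l w'
    · exact abs_zero
  rw [h1, Finset.sum_boole, cube_card hj]
  push_cast
  rfl

theorem ee_abs_le {m : ℕ} (ε w : Cub m) : |ee ε w| ≤ m := by
  unfold ee
  calc |∑ l, rad l ε * rad l w| ≤ ∑ l, |rad l ε * rad l w| := Finset.abs_sum_le_sum_abs _ _
    _ = ∑ _l : Fin m, (1 : ℝ) := by
      refine Finset.sum_congr rfl fun l _ => ?_
      rw [abs_mul, rad_abs, rad_abs, one_mul]
    _ = m := by simp

theorem nrm_uu_le {m j : ℕ} (hj : j ≤ m) (ε w : Cub m) : nrm (uu ε j w) ≤ m * 2 ^ (m - j) := by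
  have h1 : nrm (uu ε j w) ≤ ∑ w' : Cub m, (m : ℝ) * if Agr j w w' then (1 : ℝ) else 0 := by
    unfold nrm uu
    refine Finset.sum_le_sum fun w' _ => ?_
    split_ifs
    · rw [mul_one]
      exact ee_abs_le ε w'
    · rw [abs_zero, mul_zero]
  refine h1.trans_eq ?_
  rw [← Finset.mul_sum, Finset.sum_boole, cube_card hj]
  push_cast
  rfl

/-- integer signs -/
def sgi {m : ℕ} (l : Fin m) (w : Cub m) : ℤ := if w l then -1 else 1

theorem sgi_cast {m : ℕ} (l : Fin m) (w : Cub m) : ((sgi l w : ℤ) : ℝ) = rad l w := by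
  unfold sgi rad
  split_ifs <;> simp

theorem sgi_abs {m : ℕ} (l : Fin m) (w : Cub m) : |((sgi l w : ℤ) : ℝ)| = 1 := by
  rw [sgi_cast, rad_abs]

theorem uu_eq_sum {m : ℕ} (ε : Cub m) (j : ℕ) (w : Cub m) :
    uu ε j w = ∑ l, ((sgi l ε : ℤ) : ℝ) • cyl j w l := by
  funext w'
  rw [Finset.sum_apply]
  unfold uu ee cyl
  simp only [Pi.smul_apply, smul_eq_mul, sgi_cast]
  split_ifs
  · rfl
  · simp

theorem uu_zero {m : ℕ} (ε w : Cub m) : uu ε 0 w = ee ε := by
  funext w'
  unfold uu
  rw [if_pos]
  intro i hi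
  omega

theorem cyl_zero {m : ℕ} (w w' : Cub m) (l : Fin m) : cyl 0 w l = cyl 0 w' l := by
  funext v
  have h : ∀ u : Cub m, Agr 0 u v := fun u i hi => by omega
  unfold cyl
  rw [if_pos (h w), if_pos (h w')]

theorem ee_eq_sum {m : ℕ} (ε w : Cub m) : ee ε = ∑ l, ((sgi l ε : ℤ) : ℝ) • cyl 0 w l := by
  rw [← uu_eq_sum, uu_zero]

private theorem cube_agr_top {m : ℕ} (w w' : Cub m) : Agr m w w' ↔ w' = w := by
  constructor
  · intro h
    funext i
    exact h i i.2
  · rintro rfl i _
    rfl

theorem uu_top {m : ℕ} (ε w : Cub m) : uu ε m w = ee ε w • dlt w := by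
  funext w'
  unfold uu dlt
  rw [Pi.smul_apply, smul_eq_mul]
  by_cases h : w' = w
  · rw [if_pos ((cube_agr_top w w').2 h), if_pos h, h, mul_one]
  · rw [if_neg (fun h1 => h ((cube_agr_top w w').1 h1)), if_neg h, mul_zero]

theorem cyl_top {m : ℕ} (w : Cub m) (l : Fin m) : cyl m w l = rad l w • dlt w := by
  funext w'
  unfold cyl dlt
  rw [Pi.smul_apply, smul_eq_mul]
  by_cases h : w' = w
  · rw [if_pos ((cube_agr_top w w').2 h), if_pos h, h, mul_one]
  · rw [if_neg (fun h1 => h ((cube_agr_top w w').1 h1)), if_neg h, mul_zero]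

private theorem cube_split {m : ℕ} (w w' : Cub m) (j : Fin m) (a : ℝ) :
    (if Agr j w w' then a else 0) =
      (if Agr (j + 1) w w' then a else 0) + (if Agr (j + 1) (flp j w) w' then a else 0) := by
  have e1 := cube_agr_succ w w' j
  have e2 := cube_agr_flp w w' j
  by_cases h : Agr j w w'
  · by_cases h1 : w' j = w j
    · have h2 : ¬ Agr (j + 1) (flp j w) w' := by
        rw [e2]
        rintro ⟨_, h3⟩
        rw [h1] at h3
        have key : ∀ b : Bool, b ≠ !b := by decide
        exact key _ h3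
      rw [if_pos h, if_pos (e1.2 ⟨h, h1⟩), if_neg h2, add_zero]
    · have h2 : w' j = !(w j) := by
        cases h4 : w' j <;> cases h5 : w j <;> simp_all
      have h3 : ¬ Agr (j + 1) w w' := fun h4 => h1 (e1.1 h4).2
      rw [if_pos h, if_neg h3, if_pos (e2.2 ⟨h, h2⟩), zero_add]
  · rw [if_neg h, if_neg (fun h1 => h (e1.1 h1).1), if_neg (fun h1 => h (e2.1 h1).1), add_zero]

theorem uu_split {m : ℕ} (ε w : Cub m) (j : Fin m) :
    uu ε j w = uu ε (j + 1) w + uu ε (j + 1) (flp j w) := by
  funext w'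
  exact cube_split w w' j _

theorem cyl_split {m : ℕ} (w : Cub m) (j : Fin m) (l : Fin m) :
    cyl j w l = cyl (j + 1) w l + cyl (j + 1) (flp j w) l := by
  funext w'
  exact cube_split w w' j _

theorem cyl_flp {m : ℕ} (w : Cub m) (j : Fin m) (i : ℕ) (hi : i ≤ j) (l : Fin m) :
    cyl i (flp j w) l = cyl i w l := by
  funext w'
  unfold cyl
  have h : Agr i (flp j w) w' ↔ Agr i w w' := by
    unfold Agr flp
    refine forall_congr' fun k => ?_
    refine imp_congr_right fun hk => ?_
    have : k ≠ j := fun h => by rw [h] at hk; omega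
    rw [Function.update_of_ne this]
  by_cases h1 : Agr i w w'
  · rw [if_pos h1, if_pos (h.2 h1)]
  · rw [if_neg h1, if_neg (fun h2 => h1 (h.1 h2))]

private theorem cube_lst {m : ℕ} (w : Cub m) (j : Fin m) (i : ℕ) (hi : i ≤ j) :
    lst (flp j w) i = lst w i := by
  induction i with
  | zero =>
    unfold lst
    refine List.map_congr_left fun l _ => ?_
    rw [cyl_flp w j 0 hi]
  | succ i ih =>
    unfold lst
    rw [ih (by omega)]
    congr 1
    refine List.map_congr_left fun l _ => ?_
    rw [cyl_flp w j (i + 1) hi]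

theorem lst_flp {m : ℕ} (w : Cub m) (j : Fin m) : lst (flp j w) j = lst w j :=
  cube_lst w j j le_rfl

theorem flp_flp {m : ℕ} (j : Fin m) (w : Cub m) : flp j (flp j w) = w := by
  unfold flp
  simp

theorem sum_flp {m : ℕ} (j : Fin m) (g : Cub m → ℝ) : ∑ w, g (flp j w) = ∑ w, g w :=
  Equiv.sum_comp ⟨flp j, flp j, flp_flp j, flp_flp j⟩ g

end Pool.PolyDim
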