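import Pool.Agent.Work.MP_b0293a_gt.Neg.Aub
import Pool.Agent.Work.MP_b0293a_gt.Neg.Cube

/-!
# From an embedding to coordinates

Take `w` from `auerbach E`.  `V i = (w i) ∘ φ` is one-Lipschitz on `Mset m` for `nrm`; let `W i` be a
one-Lipschitz extension to all of `Vec m` which agrees with `V i` on `Mset m`: the McShane formula
`W x = inf_{y ∈ Mset m} (V y + nrm (x - y))` (finite infimum `Finset.inf'`; `Mset m` is nonempty:
it contains `pt w 0 0 = 0`), or Mathlib's `LipschitzOnWith.extend_real` on a type synonym.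
For `x y ∈ Mset m` let `a` be a norming functional of `φ x - φ y` (`exists_dual_vector''`:
`‖a‖ ≤ 1`, `a (φ x - φ y) = ‖φ x - φ y‖`), `a = ∑ c i • w i`; then for `z z' ∈ Mset m`
`∑ c i (W i z - W i z') = a (φ z - φ z')`.
-/

set_option autoImplicit false

namespace Pool.PolyDim

open Finset

/-- McShane extension from a finite set -/
private theorem coord_ext {m : ℕ} (S : Finset (Vec m)) (f : Vec m → ℝ)
    (hf : ∀ x ∈ S, ∀ y ∈ S, |f x - f y| ≤ nrm (x - y)) :
    ∃ W : Vec m → ℝ, Lip W ∧ ∀ x ∈ S, W x = f x := by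
  rcases S.eq_empty_or_nonempty with rfl | hS
  · refine ⟨fun _ => 0, fun x y => ?_, fun x hx => by simp at hx⟩
    rw [sub_self, abs_zero]
    exact nrm_nonneg _
  · have hsymm : ∀ x y : Vec m, nrm (x - y) = nrm (y - x) := fun x y => by
      rw [← nrm_neg, neg_sub]
    have key : ∀ x x' : Vec m, S.inf' hS (fun y => f y + nrm (x - y)) ≤
        S.inf' hS (fun y => f y + nrm (x' - y)) + nrm (x - x') := by
      intro x x'
      obtain ⟨y, hy, hy'⟩ := S.exists_mem_eq_inf' hS (fun y => f y + nrm (x' - y))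
      rw [hy']
      refine (Finset.inf'_le _ hy).trans ?_
      have : nrm (x - y) ≤ nrm (x - x') + nrm (x' - y) := by
        have := nrm_add_le (x - x') (x' - y)
        rwa [sub_add_sub_cancel] at this
      linarith
    refine ⟨fun x => S.inf' hS (fun y => f y + nrm (x - y)), fun x x' => ?_, fun x hx => ?_⟩
    · rw [abs_le]
      have h1 := key x x'
      have h2 := key x' x
      rw [hsymm x' x] at h2
      constructor <;> linarith
    · apply le_antisymm
      · refine (Finset.inf'_le _ hx).trans ?_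
        rw [sub_self]
        have : nrm (0 : Vec m) = 0 := by simp [nrm]
        linarith
      · refine Finset.le_inf' hS _ fun y hy => ?_
        have := (abs_le.1 (hf x hx y hy)).2
        linarith

theorem coord_of_embedding {E : Type*} [NormedAddCommGroup E] [NormedSpace ℝ E]
    [FiniteDimensional ℝ E] (m : ℕ) (D : ℝ) (hD : 1 ≤ D) (φ : Vec m → E)
    (h1 : ∀ x ∈ Mset m, ∀ y ∈ Mset m, ‖φ x - φ y‖ ≤ nrm (x - y))
    (h2 : ∀ x ∈ Mset m, ∀ y ∈ Mset m, nrm (x - y) / D ≤ ‖φ x - φ y‖) :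
    HasCoord m (Module.finrank ℝ E) D := by
  obtain ⟨w, hw, hspan⟩ := auerbach E
  have hV : ∀ i, ∃ W : Vec m → ℝ, Lip W ∧ ∀ x ∈ Mset m, W x = w i (φ x) := by
    intro i
    refine coord_ext (Mset m) (fun x => w i (φ x)) fun x hx y hy => ?_
    rw [← map_sub, ← Real.norm_eq_abs]
    refine ((w i).le_opNorm _).trans ?_
    calc ‖w i‖ * ‖φ x - φ y‖ ≤ 1 * ‖φ x - φ y‖ :=
          mul_le_mul_of_nonneg_right (hw i) (norm_nonneg _)
      _ ≤ nrm (x - y) := by
          rw [one_mul]
          exact h1 x hx y hy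
  choose W hWL hWe using hV
  refine ⟨W, hWL, fun x hx y hy => ?_⟩
  obtain ⟨a, ha, hax⟩ := exists_dual_vector'' ℝ (φ x - φ y)
  obtain ⟨c, hc, hac⟩ := hspan a ha
  have key : ∀ z ∈ Mset m, ∀ z' ∈ Mset m, ∑ i, c i * (W i z - W i z') = a (φ z - φ z') := by
    intro z hz z' hz'
    rw [hac, ContinuousLinearMap.sum_apply]
    refine Finset.sum_congr rfl fun i _ => ?_
    rw [hWe i z hz, hWe i z' hz', ContinuousLinearMap.smul_apply, smul_eq_mul, map_sub]
  refine ⟨c, hc, fun z hz z' hz' => ?_, ?_⟩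
  · rw [key z hz z' hz', ← Real.norm_eq_abs]
    refine (a.le_opNorm _).trans ?_
    calc ‖a‖ * ‖φ z - φ z'‖ ≤ 1 * ‖φ z - φ z'‖ :=
          mul_le_mul_of_nonneg_right ha (norm_nonneg _)
      _ ≤ nrm (z - z') := by
          rw [one_mul]
          exact h1 z hz z' hz'
  · rw [key x hx y hy, hax]
    exact h2 x hx y hy

end Pool.PolyDim
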