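import Pool.Agent.Work.MP_b0293a_gt.Neg.Defs

/-!
# `Vec m` with `nrm` is isometric to a subset of `l_1`

Use `Fintype.equivFin (Cub m)`; `ι v n = v (e.symm ⟨n, h⟩)` for `n < card`, else `0`; finite support
gives membership (`memℓp_gen` / `Memℓp` of finite support), and `lp.norm_eq_tsum_rpow` with `p = 1`.
-/

set_option autoImplicit false

namespace Pool.PolyDim

open Finset

/-- the coordinates, enumerated -/
private noncomputable def emb_f {m : ℕ} (v : Vec m) (n : ℕ) : ℝ :=
  if h : n < Fintype.card (Cub m) then v ((Fintype.equivFin (Cub m)).symm ⟨n, h⟩) else 0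

private theorem emb_f_sub {m : ℕ} (x y : Vec m) (n : ℕ) :
    emb_f (x - y) n = emb_f x n - emb_f y n := by
  unfold emb_f
  split_ifs
  · rfl
  · simp

private theorem emb_sum {m : ℕ} (v : Vec m) :
    ∑ n ∈ Finset.range (Fintype.card (Cub m)), |emb_f v n| = nrm v := by
  rw [Finset.sum_range]
  unfold nrm
  rw [← (Fintype.equivFin (Cub m)).symm.sum_comp fun w => |v w|]
  refine Finset.sum_congr rfl fun n _ => ?_
  unfold emb_f
  rw [dif_pos n.2]

theorem exists_emb (m : ℕ) : ∃ ι : Vec m → lp (fun _ : ℕ => ℝ) 1,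
    ∀ x y, ‖ι x - ι y‖ = nrm (x - y) := by
  refine ⟨fun v => ∑ n ∈ Finset.range (Fintype.card (Cub m)), lp.single 1 n (emb_f v n),
    fun x y => ?_⟩
  have h1 := lp.norm_sum_single (p := 1) (E := fun _ : ℕ => ℝ) (by simp) (fun n => emb_f (x - y) n)
    (Finset.range (Fintype.card (Cub m)))
  simp only [ENNReal.toReal_one, Real.rpow_one, Real.norm_eq_abs, emb_sum] at h1
  rw [← h1, ← Finset.sum_sub_distrib]
  congr 1
  refine Finset.sum_congr rfl fun n _ => ?_
  rw [emb_f_sub, lp.single_sub]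

end Pool.PolyDim
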