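import Pool.Agent.Work.MP_b0293a_gt.Neg.Core
import Pool.Agent.Work.MP_b0293a_gt.Neg.Coord
import Pool.Agent.Work.MP_b0293a_gt.Neg.Emb
import Pool.Agent.Work.MP_b0293a_gt.Neg.Card

/-!
# Main theorem
-/

set_option autoImplicit false

namespace Pool.PolyDim

open Finset

private theorem main_inj {m : ℕ} (ι : Vec m → lp (fun _ : ℕ => ℝ) 1)
    (hι : ∀ x y, ‖ι x - ι y‖ = nrm (x - y)) : Function.Injective ι := by
  intro x y hxy
  have h := hι x y
  rw [hxy, sub_self, norm_zero] at h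
  have h' : ∑ w, |(x - y) w| = 0 := h.symm
  rw [Finset.sum_eq_zero_iff_of_nonneg (fun _ _ => abs_nonneg _)] at h'
  funext w
  have := h' w (Finset.mem_univ _)
  rw [abs_eq_zero] at this
  have h2 : x w - y w = 0 := this
  linarith

theorem main :
    ¬ (∃ D C K : ℝ, ∀ S : Finset (lp (fun _ : ℕ => ℝ) 1), 2 ≤ S.card →
      ∃ (E : Type) (_ : NormedAddCommGroup E) (_ : NormedSpace ℝ E),
        FiniteDimensional ℝ E ∧
        ((Module.finrank ℝ E : ℕ) : ℝ) ≤ K * (Real.log (S.card : ℝ)) ^ C ∧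
        ∃ f : lp (fun _ : ℕ => ℝ) 1 → E, ∃ r : ℝ, 0 < r ∧
          ∀ x ∈ S, ∀ y ∈ S,
            r * ‖x - y‖ ≤ ‖f x - f y‖ ∧ ‖f x - f y‖ ≤ D * r * ‖x - y‖) := by
  classical
  rintro ⟨D, C, K, H⟩
  set D' : ℝ := max D 1 with hD'
  have hD1 : 1 ≤ D' := le_max_right _ _
  have hDD : D ≤ D' := le_max_left _ _
  set C' : ℕ := ⌈|C|⌉₊ with hC'
  have hCC : C ≤ (C' : ℝ) := le_trans (le_abs_self C) (Nat.le_ceil _)
  set K' : ℝ := max K 1 with hK'
  have hK1 : 1 ≤ K' := le_max_right _ _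
  have hKK : K ≤ K' := le_max_left _ _
  obtain ⟨κ, hκ, m0, hcore⟩ := core (4 * C' + 1) (by omega) D' hD1
  set m : ℕ := max m0 (⌈K' * 20 ^ C' / κ⌉₊ + 1) with hm
  have hm0 : m0 ≤ m := le_max_left _ _
  have hm1' : ⌈K' * 20 ^ C' / κ⌉₊ + 1 ≤ m := le_max_right _ _
  have hm1 : 1 ≤ m := le_trans (by omega) hm1'
  obtain ⟨ι, hι⟩ := exists_emb m
  have hinj := main_inj ι hι
  have hcard : ((Mset m).image ι).card = (Mset m).card := Finset.card_image_of_injective _ hinj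
  have h3 := three_le_card hm1
  obtain ⟨E, i1, i2, hfin, hdim, f, r, hr, hf⟩ := H ((Mset m).image ι) (by rw [hcard]; omega)
  have hDr : 0 < D' * r := by positivity
  have hcoord : HasCoord m (Module.finrank ℝ E) D' := by
    refine coord_of_embedding m D' hD1 (fun v => (D' * r)⁻¹ • f (ι v)) ?_ ?_
    · intro x hx y hy
      have h := (hf (ι x) (Finset.mem_image_of_mem _ hx) (ι y) (Finset.mem_image_of_mem _ hy)).2
      rw [hι] at h
      rw [← smul_sub, norm_smul, Real.norm_eq_abs, abs_of_pos (inv_pos.mpr hDr)]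
      rw [inv_mul_le_iff₀ hDr]
      refine le_trans h ?_
      have hn : 0 ≤ nrm (x - y) := Finset.sum_nonneg (fun _ _ => abs_nonneg _)
      have : D * r ≤ D' * r := mul_le_mul_of_nonneg_right hDD hr.le
      exact mul_le_mul_of_nonneg_right this hn
    · intro x hx y hy
      have h := (hf (ι x) (Finset.mem_image_of_mem _ hx) (ι y) (Finset.mem_image_of_mem _ hy)).1
      rw [hι] at h
      rw [← smul_sub, norm_smul, Real.norm_eq_abs, abs_of_pos (inv_pos.mpr hDr)]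
      rw [le_inv_mul_iff₀ hDr]
      have e : D' * r * (nrm (x - y) / D') = r * nrm (x - y) := by
        field_simp
      rw [e]; exact h
  have hlow := hcore m hm0 _ hcoord
  rw [hcard] at hdim
  have hlog1 : 1 ≤ Real.log ((Mset m).card : ℝ) := by
    have h3' : (3 : ℝ) ≤ ((Mset m).card : ℝ) := by exact_mod_cast h3
    rw [Real.le_log_iff_exp_le (by linarith)]
    have := Real.exp_one_lt_d9
    linarith
  have hlog2 := log_card_le hm1
  have hpow : (Real.log ((Mset m).card : ℝ)) ^ C ≤ (20 * (m : ℝ) ^ 4) ^ C' := by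
    calc (Real.log ((Mset m).card : ℝ)) ^ C ≤ (Real.log ((Mset m).card : ℝ)) ^ (C' : ℝ) :=
          Real.rpow_le_rpow_of_exponent_le hlog1 hCC
      _ = (Real.log ((Mset m).card : ℝ)) ^ C' := Real.rpow_natCast _ _
      _ ≤ (20 * (m : ℝ) ^ 4) ^ C' := pow_le_pow_left₀ (by linarith) hlog2 _
  have hpow0 : 0 ≤ (Real.log ((Mset m).card : ℝ)) ^ C :=
    Real.rpow_nonneg (by linarith) _
  have hup : κ * (m : ℝ) ^ (4 * C' + 1) ≤ K' * (20 * (m : ℝ) ^ 4) ^ C' := by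
    calc κ * (m : ℝ) ^ (4 * C' + 1) ≤ ((Module.finrank ℝ E : ℕ) : ℝ) := hlow
      _ ≤ K * (Real.log ((Mset m).card : ℝ)) ^ C := hdim
      _ ≤ K' * (Real.log ((Mset m).card : ℝ)) ^ C := mul_le_mul_of_nonneg_right hKK hpow0
      _ ≤ K' * (20 * (m : ℝ) ^ 4) ^ C' := mul_le_mul_of_nonneg_left hpow (by linarith)
  have hmpos : (0 : ℝ) < m := by exact_mod_cast hm1
  have e1 : K' * (20 * (m : ℝ) ^ 4) ^ C' = (K' * 20 ^ C') * (m : ℝ) ^ (4 * C') := by
    rw [mul_pow, ← pow_mul]; ring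
  have e2 : κ * (m : ℝ) ^ (4 * C' + 1) = (κ * m) * (m : ℝ) ^ (4 * C') := by
    rw [pow_succ]; ring
  rw [e1, e2] at hup
  have hmp : (0 : ℝ) < (m : ℝ) ^ (4 * C') := by positivity
  have hup2 : κ * m ≤ K' * 20 ^ C' := le_of_mul_le_mul_right hup hmp
  have hceil : K' * 20 ^ C' / κ < m := by
    calc K' * 20 ^ C' / κ ≤ (⌈K' * 20 ^ C' / κ⌉₊ : ℝ) := Nat.le_ceil _
      _ < ((⌈K' * 20 ^ C' / κ⌉₊ + 1 : ℕ) : ℝ) := by push_cast; linarith
      _ ≤ m := by exact_mod_cast hm1'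
  rw [div_lt_iff₀ hκ] at hceil
  linarith

end Pool.PolyDim
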