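import Mathlib

/-!
# Auerbach bases

(1) For a finite dimensional real normed space `F` of dimension `k` there is a basis `b` with
    `‖b i‖ ≤ 1` and `|b.repr x i| ≤ ‖x‖` for all `x`: fix a basis `e`; `D x = |e.det x|` is a
    continuous function of `x : Fin k → F` (`Module.Basis.det` is a multilinear map on a finite
    dimensional space, `MultilinearMap.continuous_of_finiteDimensional` or
    `AlternatingMap`-version), the set `{x | ∀ i, ‖x i‖ ≤ 1}` is compact (`isCompact_univ_pi`,
    `ProperSpace`), take a maximum `b`.  `D b > 0` since the normalised basis `e i / ‖e i‖` is in the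
    set; so `b` is a basis (`Module.Basis.det` unit, `is_basis_iff_det`).  For `‖x‖ ≤ 1`,
    `D (update b i x) = |b.repr x i| D b ≤ D b` (Cramer: `AlternatingMap.map_update_sum`, or
    `Module.Basis.det_comp` ...), so `|b.repr x i| ≤ 1`; scale.
    (k = 0 is trivial.)
(2) Apply (1) to `F = StrongDual ℝ E = (E →L[ℝ] ℝ)`, which has the same dimension as `E`
    (finite dimensional: `LinearMap.toContinuousLinearMap` is a linear equivalence and
    `Subspace.dual_finrank_eq`).
-/

set_option autoImplicit false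

namespace Pool.PolyDim

private theorem aub_one (F : Type*) [NormedAddCommGroup F] [NormedSpace ℝ F]
    [FiniteDimensional ℝ F] (k : ℕ) (hk : Module.finrank ℝ F = k) :
    ∃ w : Fin k → F, (∀ i, ‖w i‖ ≤ 1) ∧
      ∀ a : F, ‖a‖ ≤ 1 → ∃ c : Fin k → ℝ, (∀ i, |c i| ≤ 1) ∧ a = ∑ i, c i • w i := by
  subst hk
  classical
  have : ProperSpace F := FiniteDimensional.proper_real F
  let e := Module.finBasis ℝ F
  let K : Set (Fin (Module.finrank ℝ F) → F) := Set.pi Set.univ fun _ => Metric.closedBall 0 1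
  have hK : IsCompact K := isCompact_univ_pi fun _ => isCompact_closedBall 0 1
  have hmem : ∀ v, v ∈ K ↔ ∀ i, ‖v i‖ ≤ 1 := by
    intro v
    constructor
    · intro h i
      have := h i (Set.mem_univ i)
      rwa [mem_closedBall_zero_iff] at this
    · intro h i _
      rw [mem_closedBall_zero_iff]
      exact h i
  have hcont : Continuous fun v : Fin (Module.finrank ℝ F) → F => |e.det v| := by
    refine continuous_abs.comp ?_
    show Continuous fun v : Fin (Module.finrank ℝ F) → F => (e.toMatrix v).det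
    refine Continuous.matrix_det ?_
    refine continuous_matrix fun i j => ?_
    exact ((e.coord i).continuous_of_finiteDimensional).comp (continuous_apply j)
  obtain ⟨v, hvK, hv⟩ := hK.exists_isMaxOn ⟨0, (hmem 0).2 fun i => by simp⟩ hcont.continuousOn
  have hmax : ∀ u ∈ K, |e.det u| ≤ |e.det v| := fun u hu => hv hu
  have hne : e.det v ≠ 0 := by
    intro h0
    have h1 := hmax (fun i => ‖e i‖⁻¹ • e i) ((hmem _).2 fun i => by
      rw [norm_smul, norm_inv, norm_norm, inv_mul_cancel₀]
      exact norm_ne_zero_iff.2 (e.ne_zero i))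
    have h2 : e.det (fun i => ‖e i‖⁻¹ • e i) = (∏ i, ‖e i‖⁻¹) • e.det e :=
      e.det.toMultilinearMap.map_smul_univ (fun i => ‖e i‖⁻¹) e
    rw [h2, e.det_self, h0, abs_zero, smul_eq_mul, mul_one] at h1
    have h3 : (0 : ℝ) < ∏ i, ‖e i‖⁻¹ :=
      Finset.prod_pos fun i _ => inv_pos.2 (norm_pos_iff.2 (e.ne_zero i))
    rw [abs_of_pos h3] at h1
    linarith
  obtain ⟨hli, hsp⟩ := e.is_basis_iff_det.2 (isUnit_iff_ne_zero.2 hne)
  refine ⟨v, (hmem v).1 hvK, fun a ha => ?_⟩
  let b := Module.Basis.mk hli hsp.ge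
  refine ⟨fun i => b.repr a i, fun i => ?_, ?_⟩
  · have h1 : e.det v * b.coord i a = e.det (Function.update v i a) := by
      exact congrArg (fun f : F →ₗ[ℝ] ℝ => f a) (e.det_smul_mk_coord_eq_det_update hli hsp.ge i)
    have h2 := hmax (Function.update v i a) ((hmem _).2 fun k => by
      rcases eq_or_ne k i with rfl | hki
      · rw [Function.update_self]
        exact ha
      · rw [Function.update_of_ne hki]
        exact (hmem v).1 hvK k)
    rw [← h1, abs_mul] at h2
    have h3 : 0 < |e.det v| := abs_pos.2 hne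
    have h4 : |b.coord i a| ≤ 1 := by
      by_contra hcon
      push Not at hcon
      nlinarith
    exact h4
  · have h1 := b.sum_repr a
    rw [← h1]
    refine Finset.sum_congr rfl fun i _ => ?_
    rw [h1, Module.Basis.mk_apply]

theorem auerbach (E : Type*) [NormedAddCommGroup E] [NormedSpace ℝ E] [FiniteDimensional ℝ E] :
    ∃ w : Fin (Module.finrank ℝ E) → (E →L[ℝ] ℝ), (∀ i, ‖w i‖ ≤ 1) ∧
      ∀ a : E →L[ℝ] ℝ, ‖a‖ ≤ 1 → ∃ c : Fin (Module.finrank ℝ E) → ℝ,
        (∀ i, |c i| ≤ 1) ∧ a = ∑ i, c i • w i := by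
  have e1 : (E →ₗ[ℝ] ℝ) ≃ₗ[ℝ] E →L[ℝ] ℝ := LinearMap.toContinuousLinearMap
  have : FiniteDimensional ℝ (E →L[ℝ] ℝ) := LinearEquiv.finiteDimensional e1
  have hk : Module.finrank ℝ (E →L[ℝ] ℝ) = Module.finrank ℝ E := by
    rw [← e1.finrank_eq]
    exact Subspace.dual_finrank_eq
  exact aub_one (E →L[ℝ] ℝ) _ hk

end Pool.PolyDim
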