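import Pool.Agent.Work.MP_b0293a_gt.Neg.Defs

set_option autoImplicit false

namespace Pool.PolyDim

open Finset

private theorem cert_moments (n : ℕ) :
    ∃ β : Fin n → ℝ, ∀ a : ℕ, a < n → ∑ i, β i * ((i : ℕ) : ℝ) ^ a = if a = 1 then 1 else 0 := by
  classical
  set v : Fin n → ℝ := fun i => ((i : ℕ) : ℝ) with hv
  have hinj : Function.Injective v := by
    intro i j h
    have : ((i : ℕ) : ℝ) = ((j : ℕ) : ℝ) := h
    exact Fin.ext (by exact_mod_cast this)
  have hdet : (Matrix.vandermonde v).det ≠ 0 := Matrix.det_vandermonde_ne_zero_iff.mpr hinj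
  set e : Fin n → ℝ := fun a => if (a : ℕ) = 1 then 1 else 0 with he
  set β : Fin n → ℝ := Matrix.vecMul e (Matrix.vandermonde v)⁻¹ with hβ
  refine ⟨β, fun a ha => ?_⟩
  have h1 : Matrix.vecMul β (Matrix.vandermonde v) = e := by
    rw [hβ, Matrix.vecMul_vecMul, Matrix.nonsing_inv_mul _ (isUnit_iff_ne_zero.mpr hdet),
      Matrix.vecMul_one]
  have h2 := congrFun h1 ⟨a, ha⟩
  simp only [Matrix.vecMul, dotProduct, Matrix.vandermonde_apply, he, hv] at h2
  exact h2

private theorem cert_prod {m : ℕ} (p : ℝ) (ε w : Cub m) :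
    ∏ l, (1 + p * (rad l ε * rad l w))
      = ∑ S : Finset (Fin m), p ^ S.card * (chi S ε * chi S w) := by
  rw [Finset.prod_one_add, Finset.powerset_univ]
  refine Finset.sum_congr rfl (fun S _ => ?_)
  rw [Finset.prod_mul_distrib, Finset.prod_mul_distrib, Finset.prod_const]
  rfl

private theorem cert_ee {m : ℕ} (ε w : Cub m) :
    ee ε w = ∑ S : Finset (Fin m), (if S.card = 1 then 1 else 0) * (chi S ε * chi S w) := by
  simp only [ite_mul, one_mul, zero_mul]
  rw [← Finset.sum_filter, Finset.univ_filter_card_eq, Finset.powersetCard_one, Finset.sum_map]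
  unfold ee
  refine Finset.sum_congr rfl (fun l _ => ?_)
  simp [chi]

private theorem cert_sum {m : ℕ} (p : ℝ) (ε : Cub m) :
    ∑ w : Cub m, ∏ l, (1 + p * (rad l ε * rad l w)) = 2 ^ m := by
  have h := Finset.prod_univ_sum (fun _ : Fin m => (Finset.univ : Finset Bool))
    (fun l b => 1 + p * (rad l ε * (if b then (-1 : ℝ) else 1)))
  rw [Fintype.piFinset_univ] at h
  have e1 : ∑ w : Cub m, ∏ l, (1 + p * (rad l ε * rad l w))
      = ∑ x : (Fin m → Bool), ∏ l, (1 + p * (rad l ε * (if x l then (-1 : ℝ) else 1))) := rfl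
  rw [e1, ← h]
  have e2 : ∀ l : Fin m, ∑ b : Bool, (1 + p * (rad l ε * (if b then (-1 : ℝ) else 1))) = 2 := by
    intro l
    rw [Fintype.sum_bool]
    simp
    ring
  rw [Finset.prod_congr rfl (fun l _ => e2 l)]
  simp

theorem cert (J : ℕ) (hJ : 1 ≤ J) (c : ℝ) (hc : 0 < c) :
    ∃ (C1 : ℝ) (m0 : ℕ), 0 < C1 ∧ ∀ m : ℕ, m0 ≤ m → 1 ≤ m →
      ∃ (η : ℕ → ℝ) (Bf : Cub m → Cub m → ℝ),
        (∀ a ≤ m, |η a| ≤ C1 / (m : ℝ) ^ J) ∧
        (∀ ε, ∑ w, |Bf ε w| ≤ 2 ^ m * c) ∧
        ∀ ε w, ee ε w / Real.sqrt m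
          = Bf ε w + ∑ S : Finset (Fin m), η S.card * (chi S ε * chi S w) := by
  set n : ℕ := 2 * J with hn
  obtain ⟨β, hβ⟩ := cert_moments n
  set b : ℝ := ∑ i, |β i| with hb
  have hb0 : 0 ≤ b := Finset.sum_nonneg (fun _ _ => abs_nonneg _)
  set T : ℝ := (b + 1) / c with hT
  have hT0 : 0 < T := by rw [hT]; positivity
  have hbT : b / T ≤ c := by
    rw [hT, div_div_eq_mul_div, div_le_iff₀ (by positivity)]
    nlinarith
  refine ⟨c * (T * n) ^ n + 1, ⌈(T * n) ^ 2⌉₊, by positivity, ?_⟩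
  intro m hm hm1
  have hM1 : (1 : ℝ) ≤ m := by exact_mod_cast hm1
  have hs1 : 1 ≤ Real.sqrt m := Real.one_le_sqrt.mpr hM1
  have hs0 : 0 < Real.sqrt m := by linarith
  have hTn : T * n ≤ Real.sqrt m := by
    apply Real.le_sqrt_of_sq_le
    calc (T * n) ^ 2 ≤ (⌈(T * n) ^ 2⌉₊ : ℝ) := Nat.le_ceil _
      _ ≤ m := by exact_mod_cast hm
  set p : Fin n → ℝ := fun i => T * ((i : ℕ) : ℝ) / Real.sqrt m with hp
  have hp0 : ∀ i, 0 ≤ p i := fun i => by rw [hp]; positivity
  have hpn : ∀ i, p i ≤ T * n / Real.sqrt m := by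
    intro i
    simp only [hp]
    apply div_le_div_of_nonneg_right _ hs0.le
    apply mul_le_mul_of_nonneg_left _ hT0.le
    exact_mod_cast i.2.le
  have hr1 : T * n / Real.sqrt m ≤ 1 := by
    rw [div_le_one hs0]; exact hTn
  have hr0 : 0 ≤ T * n / Real.sqrt m := by positivity
  have hp1 : ∀ i, p i ≤ 1 := fun i => le_trans (hpn i) hr1
  have hmom : ∀ a : ℕ, ∑ i, β i * (p i) ^ a = (T / Real.sqrt m) ^ a * ∑ i, β i * ((i : ℕ) : ℝ) ^ a := by
    intro a
    rw [Finset.mul_sum]
    refine Finset.sum_congr rfl (fun i _ => ?_)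
    simp only [hp]
    rw [show T * ((i : ℕ) : ℝ) / Real.sqrt m = (T / Real.sqrt m) * ((i : ℕ) : ℝ) by ring, mul_pow]
    ring
  refine ⟨fun a => (if a = 1 then 1 else 0) / Real.sqrt m - (1 / T) * ∑ i, β i * (p i) ^ a,
    fun ε w => (1 / T) * ∑ i, β i * ∏ l, (1 + p i * (rad l ε * rad l w)), ?_, ?_, ?_⟩
  · intro a _
    have hpos : 0 ≤ (c * (T * n) ^ n + 1) / (m : ℝ) ^ J := by positivity
    by_cases ha : a < n
    · have h1 := hmom a
      rw [hβ a ha] at h1
      simp only
      rw [h1]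
      by_cases ha1 : a = 1
      · subst ha1
        have : (if (1 : ℕ) = 1 then (1 : ℝ) else 0) / Real.sqrt m
            - 1 / T * ((T / Real.sqrt m) ^ 1 * (if (1 : ℕ) = 1 then 1 else 0)) = 0 := by
          rw [if_pos rfl, pow_one]
          field_simp
          ring
        rw [this, abs_zero]
        exact hpos
      · rw [if_neg ha1]
        simp only [zero_div, mul_zero, sub_zero, abs_zero]
        exact hpos
    · rw [not_lt] at ha
      have ha1 : a ≠ 1 := by omega
      simp only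
      rw [if_neg ha1, zero_div, zero_sub, abs_neg, abs_mul, abs_of_pos (by positivity : 0 < 1 / T)]
      have h2 : |∑ i, β i * (p i) ^ a| ≤ b * (T * n / Real.sqrt m) ^ n := by
        refine le_trans (Finset.abs_sum_le_sum_abs _ _) ?_
        rw [hb, Finset.sum_mul]
        refine Finset.sum_le_sum (fun i _ => ?_)
        rw [abs_mul]
        apply mul_le_mul_of_nonneg_left _ (abs_nonneg _)
        rw [abs_of_nonneg (pow_nonneg (hp0 i) a)]
        calc (p i) ^ a ≤ (p i) ^ n := pow_le_pow_of_le_one (hp0 i) (hp1 i) ha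
          _ ≤ (T * n / Real.sqrt m) ^ n := pow_le_pow_left₀ (hp0 i) (hpn i) n
      have h3 : (T * n / Real.sqrt m) ^ n = (T * n) ^ n / (m : ℝ) ^ J := by
        rw [div_pow]
        congr 1
        rw [hn, pow_mul, Real.sq_sqrt (by positivity)]
      calc 1 / T * |∑ i, β i * (p i) ^ a| ≤ 1 / T * (b * (T * n / Real.sqrt m) ^ n) :=
            mul_le_mul_of_nonneg_left h2 (by positivity)
        _ = (b / T) * ((T * n) ^ n / (m : ℝ) ^ J) := by rw [h3]; ring
        _ ≤ c * ((T * n) ^ n / (m : ℝ) ^ J) := mul_le_mul_of_nonneg_right hbT (by positivity)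
        _ ≤ (c * (T * n) ^ n + 1) / (m : ℝ) ^ J := by
            rw [← mul_div_assoc]
            apply div_le_div_of_nonneg_right _ (by positivity)
            linarith
  · intro ε
    have hprod0 : ∀ (i : Fin n) (w : Cub m), 0 ≤ ∏ l, (1 + p i * (rad l ε * rad l w)) := by
      intro i w
      refine Finset.prod_nonneg (fun l _ => ?_)
      have h1 : rad l ε * rad l w = 1 ∨ rad l ε * rad l w = -1 := by
        unfold rad
        split_ifs <;> norm_num
      rcases h1 with h1 | h1 <;> rw [h1] <;> linarith [hp0 i, hp1 i]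
    have h1 : ∀ w ∈ (Finset.univ : Finset (Cub m)),
        |(1 / T) * ∑ i, β i * ∏ l, (1 + p i * (rad l ε * rad l w))|
          ≤ (1 / T) * ∑ i, |β i| * ∏ l, (1 + p i * (rad l ε * rad l w)) := by
      intro w _
      rw [abs_mul, abs_of_pos (by positivity : 0 < 1 / T)]
      apply mul_le_mul_of_nonneg_left _ (by positivity)
      refine le_trans (Finset.abs_sum_le_sum_abs _ _) (le_of_eq ?_)
      refine Finset.sum_congr rfl (fun i _ => ?_)
      rw [abs_mul, abs_of_nonneg (hprod0 i w)]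
    refine le_trans (Finset.sum_le_sum h1) ?_
    rw [← Finset.mul_sum, Finset.sum_comm]
    have h2 : ∀ i ∈ (Finset.univ : Finset (Fin n)),
        ∑ w : Cub m, |β i| * ∏ l, (1 + p i * (rad l ε * rad l w)) = |β i| * 2 ^ m := by
      intro i _
      rw [← Finset.mul_sum, cert_sum]
    rw [Finset.sum_congr rfl h2, ← Finset.sum_mul, ← hb]
    calc 1 / T * (b * 2 ^ m) = 2 ^ m * (b / T) := by ring
      _ ≤ 2 ^ m * c := mul_le_mul_of_nonneg_left hbT (by positivity)
  · intro ε w
    have h1 : ∑ S : Finset (Fin m), ((if S.card = 1 then 1 else 0) / Real.sqrt m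
        - (1 / T) * ∑ i, β i * (p i) ^ S.card) * (chi S ε * chi S w)
        = ee ε w / Real.sqrt m - (1 / T) * ∑ i, β i * ∏ l, (1 + p i * (rad l ε * rad l w)) := by
      rw [cert_ee, Finset.sum_div]
      simp only [cert_prod]
      have h2 : ∑ i, β i * ∑ S : Finset (Fin m), p i ^ S.card * (chi S ε * chi S w)
          = ∑ S : Finset (Fin m), (∑ i, β i * (p i) ^ S.card) * (chi S ε * chi S w) := by
        simp only [Finset.mul_sum, Finset.sum_mul]
        rw [Finset.sum_comm]
        refine Finset.sum_congr rfl (fun S _ => Finset.sum_congr rfl (fun i _ => ?_))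
        ring
      rw [h2, Finset.mul_sum, ← Finset.sum_sub_distrib]
      refine Finset.sum_congr rfl (fun S _ => ?_)
      ring
    simp only
    rw [h1]
    ring

end Pool.PolyDim
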