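import Pool.Agent.Work.MP_b0293a_gt.Neg.Defs

/-!
# Parseval on the cube
-/

set_option autoImplicit false

namespace Pool.PolyDim

open Finset

private theorem four_sum_S {m : ℕ} (w w' : Cub m) :
    ∑ S : Finset (Fin m), chi S w * chi S w' = if w = w' then 2 ^ m else 0 := by
  have h1 : ∑ S : Finset (Fin m), chi S w * chi S w' = ∏ l, (1 + rad l w * rad l w') := by
    rw [Finset.prod_one_add, Finset.powerset_univ]
    refine Finset.sum_congr rfl (fun S _ => ?_)
    rw [Finset.prod_mul_distrib]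
    rfl
  rw [h1]
  by_cases h : w = w'
  · subst h
    rw [if_pos rfl]
    have : ∀ l ∈ (Finset.univ : Finset (Fin m)), (1 + rad l w * rad l w) = 2 := by
      intro l _
      unfold rad
      split_ifs <;> norm_num
    rw [Finset.prod_congr rfl this]
    simp
  · rw [if_neg h]
    obtain ⟨l, hl⟩ := Function.ne_iff.mp h
    apply Finset.prod_eq_zero (Finset.mem_univ l)
    unfold rad
    cases h1 : w l <;> cases h2 : w' l <;> simp_all

private theorem four_sum_w {m : ℕ} (S S' : Finset (Fin m)) :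
    ∑ w : Cub m, chi S w * chi S' w = if S = S' then 2 ^ m else 0 := by
  classical
  have e0 : ∀ (S : Finset (Fin m)) (w : Cub m), chi S w = ∏ l, (if l ∈ S then rad l w else 1) := by
    intro S w
    unfold chi
    rw [Finset.prod_ite_mem, Finset.univ_inter]
  have e1 : ∀ w : Cub m, chi S w * chi S' w
      = ∏ l, ((if l ∈ S then (if w l then (-1 : ℝ) else 1) else 1)
          * (if l ∈ S' then (if w l then (-1 : ℝ) else 1) else 1)) := by
    intro w
    rw [e0, e0, ← Finset.prod_mul_distrib]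
    rfl
  have h := Finset.prod_univ_sum (fun _ : Fin m => (Finset.univ : Finset Bool))
    (fun l b => ((if l ∈ S then (if b then (-1 : ℝ) else 1) else 1)
          * (if l ∈ S' then (if b then (-1 : ℝ) else 1) else 1)))
  rw [Fintype.piFinset_univ] at h
  have e2 : ∑ w : Cub m, chi S w * chi S' w
      = ∑ x : (Fin m → Bool), ∏ l, ((if l ∈ S then (if x l then (-1 : ℝ) else 1) else 1)
          * (if l ∈ S' then (if x l then (-1 : ℝ) else 1) else 1)) :=
    Finset.sum_congr rfl (fun w _ => e1 w)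
  rw [e2, ← h]
  by_cases hS : S = S'
  · subst hS
    rw [if_pos rfl]
    have : ∀ l ∈ (Finset.univ : Finset (Fin m)), ∑ b : Bool, ((if l ∈ S then (if b then (-1 : ℝ) else 1) else 1)
          * (if l ∈ S then (if b then (-1 : ℝ) else 1) else 1)) = 2 := by
      intro l _
      rw [Fintype.sum_bool]
      by_cases h1 : l ∈ S
      · simp only [if_pos h1]; norm_num
      · simp only [if_neg h1]; norm_num
    rw [Finset.prod_congr rfl this]
    simp
  · rw [if_neg hS]
    have : ∃ l, ¬ (l ∈ S ↔ l ∈ S') := by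
      by_contra hcon
      apply hS
      ext l
      by_contra h'
      exact hcon ⟨l, h'⟩
    obtain ⟨l, hl⟩ := this
    apply Finset.prod_eq_zero (Finset.mem_univ l)
    rw [Fintype.sum_bool]
    by_cases h1 : l ∈ S <;> by_cases h2 : l ∈ S' <;> simp_all

theorem parseval_bound {m : ℕ} (η : ℕ → ℝ) (δ : ℝ) (hδ : 0 ≤ δ) (hη : ∀ a ≤ m, |η a| ≤ δ)
    (g : Cub m → ℝ) (hg : ∀ w, |g w| ≤ 1) :
    ∑ ε : Cub m, |∑ w : Cub m, (∑ S : Finset (Fin m), η S.card * (chi S ε * chi S w)) * g w|
      ≤ 2 ^ m * (2 ^ m * δ) := by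
  classical
  have hcard : (Finset.univ : Finset (Cub m)).card = 2 ^ m := by simp [Cub]
  set G : Finset (Fin m) → ℝ := fun S => ∑ w, chi S w * g w with hG
  set a : Finset (Fin m) → ℝ := fun S => η S.card * G S with ha
  have hin : ∀ ε : Cub m, ∑ w : Cub m, (∑ S : Finset (Fin m), η S.card * (chi S ε * chi S w)) * g w
      = ∑ S, a S * chi S ε := by
    intro ε
    simp only [Finset.sum_mul, ha, hG, Finset.mul_sum]
    rw [Finset.sum_comm]
    refine Finset.sum_congr rfl (fun S _ => Finset.sum_congr rfl (fun w _ => ?_))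
    ring
  simp only [hin]
  have hsq : ∑ ε : Cub m, (∑ S, a S * chi S ε) ^ 2 = 2 ^ m * ∑ S, a S ^ 2 := by
    have h1 : ∀ ε : Cub m, (∑ S, a S * chi S ε) ^ 2
        = ∑ S, ∑ S', a S * a S' * (chi S ε * chi S' ε) := by
      intro ε
      rw [sq, Finset.sum_mul_sum]
      refine Finset.sum_congr rfl (fun S _ => Finset.sum_congr rfl (fun S' _ => ?_))
      ring
    simp only [h1]
    rw [Finset.sum_comm]
    rw [Finset.mul_sum]
    refine Finset.sum_congr rfl (fun S _ => ?_)
    rw [Finset.sum_comm]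
    simp only [← Finset.mul_sum, four_sum_w]
    simp only [mul_ite, mul_zero, Finset.sum_ite_eq, Finset.mem_univ, if_true]
    ring
  have hGsq : ∑ S, G S ^ 2 = 2 ^ m * ∑ w, g w ^ 2 := by
    have h1 : ∀ S, G S ^ 2 = ∑ w, ∑ w', g w * g w' * (chi S w * chi S w') := by
      intro S
      simp only [hG]
      rw [sq, Finset.sum_mul_sum]
      refine Finset.sum_congr rfl (fun w _ => Finset.sum_congr rfl (fun w' _ => ?_))
      ring
    simp only [h1]
    rw [Finset.sum_comm, Finset.mul_sum]
    refine Finset.sum_congr rfl (fun w _ => ?_)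
    rw [Finset.sum_comm]
    simp only [← Finset.mul_sum, four_sum_S]
    simp only [mul_ite, mul_zero, Finset.sum_ite_eq, Finset.mem_univ, if_true]
    ring
  have hgs : ∑ w, g w ^ 2 ≤ 2 ^ m := by
    have : ∀ w ∈ (Finset.univ : Finset (Cub m)), g w ^ 2 ≤ 1 := by
      intro w _
      have := hg w
      rw [← sq_abs]
      have h0 := abs_nonneg (g w)
      nlinarith
    refine le_trans (Finset.sum_le_sum this) ?_
    rw [Finset.sum_const, hcard, nsmul_eq_mul]
    push_cast
    simp
  have has : ∑ S, a S ^ 2 ≤ δ ^ 2 * (2 ^ m * 2 ^ m) := by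
    have h1 : ∀ S ∈ (Finset.univ : Finset (Finset (Fin m))), a S ^ 2 ≤ δ ^ 2 * G S ^ 2 := by
      intro S _
      simp only [ha]
      rw [mul_pow]
      apply mul_le_mul_of_nonneg_right _ (sq_nonneg _)
      have hc : S.card ≤ m := by
        have := Finset.card_le_univ S
        simpa using this
      have := hη S.card hc
      rw [← sq_abs (η S.card)]
      exact pow_le_pow_left₀ (abs_nonneg _) this 2
    refine le_trans (Finset.sum_le_sum h1) ?_
    rw [← Finset.mul_sum, hGsq]
    apply mul_le_mul_of_nonneg_left _ (sq_nonneg _)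
    exact mul_le_mul_of_nonneg_left hgs (by positivity)
  have hcs := sq_sum_le_card_mul_sum_sq (s := (Finset.univ : Finset (Cub m)))
    (f := fun ε => |∑ S, a S * chi S ε|)
  simp only [sq_abs] at hcs
  rw [hsq, hcard] at hcs
  push_cast at hcs
  have hfin : (∑ ε : Cub m, |∑ S, a S * chi S ε|) ^ 2 ≤ (2 ^ m * (2 ^ m * δ)) ^ 2 := by
    refine le_trans hcs ?_
    have e : (2 ^ m * (2 ^ m * δ)) ^ 2 = (2 : ℝ) ^ m * (2 ^ m * (δ ^ 2 * (2 ^ m * 2 ^ m))) := by ring
    rw [e]
    apply mul_le_mul_of_nonneg_left _ (by positivity)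
    exact mul_le_mul_of_nonneg_left has (by positivity)
  exact (pow_le_pow_iff_left₀ (Finset.sum_nonneg (fun _ _ => abs_nonneg _)) (by positivity)
    (by norm_num)).mp hfin

end Pool.PolyDim
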