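import Pool.Agent.Work.MP_b0293a_gt.Neg.Defs

/-!
# Khinchine (L1 lower bound by the fourth moment)

`nrm (ee ε) = ∑_w |∑_l ε_l w_l|`.  Proof: let `X w = ee ε w`.
(1) `∑_w X^2 = 2^m m` and `∑_w X^4 = 2^m (3 m^2 - 2 m) ≤ 2^m 3 m^2`.  By induction on `m`
    (`Fin (m+1) → Bool` is `Bool × (Fin m → Bool)` by `Fin.consEquiv` or `Fin.snocEquiv`;
    `(Y+s)^2 + (Y-s)^2 = 2 Y^2 + 2`, `(Y+s)^4 + (Y-s)^4 = 2 Y^4 + 12 Y^2 + 2` for `s = ±1`),
    for arbitrary signs `ε` (so the induction is over all `ε`).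
(2) for `a > 0` (take `a = sqrt (3 m)`) and all real `x`: `|x| ≥ 3 x^2 / (2 a) - x^4 / (2 a^3)`
    (for `x ≥ 0`, `t = x / a`: `1 - 3 t/2 + t^3/2 = (1 - t)^2 (1 + t/2) ≥ 0`).
    Sum: `∑ |X| ≥ 2^m (3 m / (2 a) - 3 m^2 / (2 a^3)) = 2^m m / a = 2^m sqrt (m/3)`.
`m = 0` is trivial.
-/

set_option autoImplicit false

namespace Pool.PolyDim

open Finset

private theorem khin_split {m : ℕ} (f : (Fin (m + 1) → Bool) → ℝ) :
    ∑ w, f w = ∑ w : Fin m → Bool, (f (Fin.cons true w) + f (Fin.cons false w)) := by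
  rw [← (Fin.consEquiv (fun _ : Fin (m + 1) => Bool)).sum_comp, Fintype.sum_prod_type]
  rw [Fintype.sum_bool, ← Finset.sum_add_distrib]
  rfl

private theorem khin_cons_true {m : ℕ} (a : Fin (m + 1) → ℝ) (w : Fin m → Bool) :
    ∑ l, a l * rad l (Fin.cons true w : Fin (m + 1) → Bool) =
      - a 0 + ∑ l, a l.succ * rad l w := by
  rw [Fin.sum_univ_succ]
  have h : a 0 * rad 0 (Fin.cons true w : Fin (m + 1) → Bool) = - a 0 := by
    simp [rad]
  rw [h]
  rfl

private theorem khin_cons_false {m : ℕ} (a : Fin (m + 1) → ℝ) (w : Fin m → Bool) :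
    ∑ l, a l * rad l (Fin.cons false w : Fin (m + 1) → Bool) =
      a 0 + ∑ l, a l.succ * rad l w := by
  rw [Fin.sum_univ_succ]
  have h : a 0 * rad 0 (Fin.cons false w : Fin (m + 1) → Bool) = a 0 := by
    simp [rad]
  rw [h]
  rfl

private theorem khin_mom {m : ℕ} (a : Fin m → ℝ) (ha : ∀ l, a l ^ 2 = 1) :
    ∑ w : Fin m → Bool, (∑ l, a l * rad l w) ^ 2 = 2 ^ m * m ∧
      ∑ w : Fin m → Bool, (∑ l, a l * rad l w) ^ 4 = 2 ^ m * (3 * (m : ℝ) ^ 2 - 2 * m) := by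
  induction m with
  | zero => constructor <;> simp
  | succ m ih =>
    obtain ⟨h2, h4⟩ := ih (fun l => a l.succ) (fun l => ha l.succ)
    have h0 := ha 0
    constructor
    · rw [khin_split]
      simp only [khin_cons_true, khin_cons_false]
      have e : ∀ w : Fin m → Bool,
          ((- a 0 + ∑ l, a l.succ * rad l w) ^ 2 + (a 0 + ∑ l, a l.succ * rad l w) ^ 2) =
          2 * (∑ l, a l.succ * rad l w) ^ 2 + 2 := by
        intro w
        linear_combination 2 * h0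
      rw [Finset.sum_congr rfl fun w _ => e w, Finset.sum_add_distrib, ← Finset.mul_sum, h2,
        Finset.sum_const, Finset.card_univ]
      simp only [Fintype.card_fun, Fintype.card_bool, Fintype.card_fin, nsmul_eq_mul]
      push_cast
      ring
    · rw [khin_split]
      simp only [khin_cons_true, khin_cons_false]
      have e : ∀ w : Fin m → Bool,
          ((- a 0 + ∑ l, a l.succ * rad l w) ^ 4 + (a 0 + ∑ l, a l.succ * rad l w) ^ 4) =
          2 * (∑ l, a l.succ * rad l w) ^ 4 + 12 * (∑ l, a l.succ * rad l w) ^ 2 + 2 := by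
        intro w
        have h04 : a 0 ^ 4 = 1 := by
          calc a 0 ^ 4 = (a 0 ^ 2) ^ 2 := by ring
            _ = 1 := by rw [h0]; norm_num
        linear_combination 12 * (∑ l, a l.succ * rad l w) ^ 2 * h0 + 2 * h04
      rw [Finset.sum_congr rfl fun w _ => e w, Finset.sum_add_distrib, Finset.sum_add_distrib,
        ← Finset.mul_sum, ← Finset.mul_sum, h2, h4, Finset.sum_const, Finset.card_univ]
      simp only [Fintype.card_fun, Fintype.card_bool, Fintype.card_fin, nsmul_eq_mul]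
      push_cast
      ring

private theorem khin_pt {a : ℝ} (ha : 0 < a) (x : ℝ) :
    3 / (2 * a) * x ^ 2 - 1 / (2 * a ^ 3) * x ^ 4 ≤ |x| := by
  have h1 : x ^ 2 = |x| ^ 2 := (sq_abs x).symm
  have h2 : x ^ 4 = |x| ^ 4 := by
    calc x ^ 4 = (x ^ 2) ^ 2 := by ring
      _ = |x| ^ 4 := by rw [h1]; ring
  rw [h1, h2]
  set t := |x| with ht
  have ht0 : 0 ≤ t := abs_nonneg x
  have h3 : t - (3 / (2 * a) * t ^ 2 - 1 / (2 * a ^ 3) * t ^ 4) =
      t * ((a - t) ^ 2 * (2 * a + t)) / (2 * a ^ 3) := by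
    field_simp
    ring
  have h4 : 0 ≤ t * ((a - t) ^ 2 * (2 * a + t)) / (2 * a ^ 3) := by positivity
  linarith

theorem nrm_ee_ge {m : ℕ} (ε : Cub m) : (2 : ℝ) ^ m * Real.sqrt (m / 3) ≤ nrm (ee ε) := by
  rcases Nat.eq_zero_or_pos m with hm | hm
  · subst hm
    simp only [Nat.cast_zero, zero_div, Real.sqrt_zero, mul_zero]
    exact Finset.sum_nonneg fun w _ => abs_nonneg _
  have hm' : (0 : ℝ) < m := by exact_mod_cast hm
  obtain ⟨h2, h4⟩ := khin_mom (fun l => rad l ε) (fun l => by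
    unfold rad
    split_ifs <;> norm_num)
  set a := Real.sqrt (3 * m) with ha
  have ha0 : 0 < a := Real.sqrt_pos.mpr (by positivity)
  have haa : a ^ 2 = 3 * m := Real.sq_sqrt (by positivity)
  have hsum : ∑ w : Fin m → Bool, (3 / (2 * a) * (∑ l, rad l ε * rad l w) ^ 2 -
      1 / (2 * a ^ 3) * (∑ l, rad l ε * rad l w) ^ 4) ≤ nrm (ee ε) :=
    Finset.sum_le_sum fun w _ => khin_pt ha0 _
  rw [Finset.sum_sub_distrib, ← Finset.mul_sum, ← Finset.mul_sum, h2, h4] at hsum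
  refine le_trans ?_ hsum
  have hs : Real.sqrt (m / 3) = m / a := by
    rw [eq_div_iff ha0.ne', ha, ← Real.sqrt_mul (by positivity)]
    rw [show (m : ℝ) / 3 * (3 * m) = (m : ℝ) ^ 2 by ring]
    exact Real.sqrt_sq hm'.le
  rw [hs]
  have h3 : a ^ 3 = 3 * m * a := by
    calc a ^ 3 = a ^ 2 * a := by ring
      _ = 3 * m * a := by rw [haa]
  have h5 : 3 / (2 * a) * (2 ^ m * (m : ℝ)) - 1 / (2 * a ^ 3) * (2 ^ m * (3 * (m : ℝ) ^ 2 - 2 * m)) -
      2 ^ m * (m / a) = 2 ^ m / (3 * a) := by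
    rw [h3]
    field_simp
    ring
  have h6 : (0 : ℝ) ≤ 2 ^ m / (3 * a) := by positivity
  linarith

end Pool.PolyDim
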