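import Pool.Agent.Work.MP_b0293a_gt.Neg.Cube

/-!
# All points used lie in the point set

`Rch (lst w m) z x` means `x = z + ∑_{i ≤ m} ∑_l c_{i,l} cyl i w l` with `|c_{i,l}| ≤ scl m i`
(induction on the list; first treat one block `(List.finRange m).map ...`).  With
`z = ∑_l a_l cyl 0 w l + k ee ε`, `|a_l| ≤ nb m`, `0 ≤ k ≤ kk m`, the coefficients of `cyl 0 w l` are
`a_l ± k + c_{0,l}`, bounded by `nb m + kk m + scl m 0 ≤ rr m` (m ≥ 1), and
`scl m i ≤ scl m 0 ≤ rr m`.  Hence `x` and `x + dlt w` are in `Mset m`.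
-/

set_option autoImplicit false

namespace Pool.PolyDim

open Finset

/-- the point `z = ∑_l a_l r_l + k ee ε` -/
noncomputable def base {m : ℕ} (a : Fin m → ℤ) (k : ℕ) (ε : Cub m) : Vec m :=
  (∑ l, (a l : ℝ) • cyl 0 (fun _ => false) l) + (k : ℝ) • ee ε

/-- one block -/
private theorem reach_block {V : Type*} [AddCommGroup V] [Module ℝ V] {m : ℕ} (N : ℕ)
    (v : Fin m → V) (I : List (Fin m)) (hI : I.Nodup) (L' : List (ℕ × V)) (z x : V)
    (hx : Rch (I.map (fun l => (N, v l)) ++ L') z x) :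
    ∃ a : Fin m → ℤ, (∀ l, |a l| ≤ (N : ℤ)) ∧ (∀ l ∉ I, a l = 0) ∧
      Rch L' (z + ∑ l, (a l : ℝ) • v l) x := by
  induction I generalizing z with
  | nil =>
    refine ⟨fun _ => 0, fun l => by simp, fun _ _ => rfl, ?_⟩
    simpa using hx
  | cons l I ih =>
    obtain ⟨k, hk, hk2⟩ := hx
    obtain ⟨hl, hI'⟩ := List.nodup_cons.1 hI
    obtain ⟨a, ha, ha0, hr⟩ := ih hI' _ hk2
    refine ⟨Function.update a l k, fun i => ?_, fun i hi => ?_, ?_⟩
    · rcases eq_or_ne i l with rfl | h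
      · rw [Function.update_self]
        exact hk
      · rw [Function.update_of_ne h]
        exact ha i
    · rw [List.mem_cons, not_or] at hi
      rw [Function.update_of_ne hi.1]
      exact ha0 i hi.2
    · have e : z + ∑ i, ((Function.update a l k i : ℤ) : ℝ) • v i =
          z + (k : ℝ) • v l + ∑ i, (a i : ℝ) • v i := by
        have h0 : a l = 0 := ha0 l hl
        rw [← Finset.add_sum_erase _ _ (Finset.mem_univ l),
          ← Finset.add_sum_erase (Finset.univ) (fun i => (a i : ℝ) • v i) (Finset.mem_univ l),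
          Function.update_self, h0]
        have : ∑ i ∈ Finset.univ.erase l, ((Function.update a l k i : ℤ) : ℝ) • v i =
            ∑ i ∈ Finset.univ.erase l, (a i : ℝ) • v i := by
          refine Finset.sum_congr rfl fun i hi => ?_
          rw [Function.update_of_ne (Finset.ne_of_mem_erase hi)]
        rw [this]
        push_cast
        rw [zero_smul, zero_add, add_assoc]
      rw [e]
      exact hr

private theorem reach_fin {V : Type*} [AddCommGroup V] [Module ℝ V] {m : ℕ} (N : ℕ)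
    (v : Fin m → V) (L' : List (ℕ × V)) (z x : V)
    (hx : Rch ((List.finRange m).map (fun l => (N, v l)) ++ L') z x) :
    ∃ a : Fin m → ℤ, (∀ l, |a l| ≤ (N : ℤ)) ∧ Rch L' (z + ∑ l, (a l : ℝ) • v l) x := by
  obtain ⟨a, ha, -, hr⟩ := reach_block N v (List.finRange m) (List.nodup_finRange m) L' z x hx
  exact ⟨a, ha, hr⟩

/-- the whole list -/
private theorem reach_lst {m : ℕ} (w : Cub m) (j : ℕ) (z x : Vec m) (hx : Rch (lst w j) z x) :
    ∃ c : ℕ → Fin m → ℤ, (∀ i l, |c i l| ≤ (scl m i : ℤ)) ∧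
      x = z + ∑ i ∈ Finset.range (j + 1), ∑ l, (c i l : ℝ) • cyl i w l := by
  induction j generalizing z with
  | zero =>
    have hx' : Rch ((List.finRange m).map (fun l => (scl m 0, cyl 0 w l)) ++ []) z x := by
      rw [List.append_nil]
      exact hx
    obtain ⟨a, ha, hr⟩ := reach_fin _ _ _ _ _ hx'
    refine ⟨fun i => if i = 0 then a else 0, fun i l => ?_, ?_⟩
    · dsimp only
      split_ifs with h
      · subst h
        exact ha l
      · simp
    · rw [Finset.sum_range_one]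
      exact hr
  | succ j ih =>
    obtain ⟨a, ha, hr⟩ := reach_fin _ _ _ _ _ hx
    obtain ⟨c, hc, hcx⟩ := ih _ hr
    refine ⟨fun i => if i = j + 1 then a else c i, fun i l => ?_, ?_⟩
    · dsimp only
      split_ifs with h
      · subst h
        exact ha l
      · exact hc i l
    · rw [Finset.sum_range_succ, hcx]
      have e1 : ∑ i ∈ Finset.range (j + 1), ∑ l, (((if i = j + 1 then a else c i) l : ℤ) : ℝ) •
          cyl i w l = ∑ i ∈ Finset.range (j + 1), ∑ l, (c i l : ℝ) • cyl i w l := by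
        refine Finset.sum_congr rfl fun i hi => ?_
        rw [Finset.mem_range] at hi
        rw [if_neg (by omega)]
      rw [e1]
      have e2 : ∑ l, (((if j + 1 = j + 1 then a else c (j + 1)) l : ℤ) : ℝ) • cyl (j + 1) w l =
          ∑ l, (a l : ℝ) • cyl (j + 1) w l := by
        rw [if_pos rfl]
      rw [e2]
      abel

private theorem reach_mset {m : ℕ} (w : Cub m) (c : Fin (m + 1) → Fin m → ℤ) (t : ℕ)
    (ht : t < 2) (hc : ∀ i l, |c i l| ≤ (rr m : ℤ)) : pt w c t ∈ Mset m := by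
  classical
  unfold Mset
  rw [Finset.mem_image]
  refine ⟨(w, c, t), ?_, rfl⟩
  rw [Finset.mem_product, Finset.mem_product]
  refine ⟨Finset.mem_univ _, ?_, Finset.mem_range.2 ht⟩
  rw [Fintype.mem_piFinset]
  intro i
  rw [Fintype.mem_piFinset]
  intro l
  rw [Finset.mem_Icc]
  exact abs_le.1 (hc i l)

private theorem reach_scl {m : ℕ} (i : ℕ) : scl m i ≤ scl m 0 :=
  Nat.pow_le_pow_right (by norm_num) (Nat.mul_le_mul_left m (by omega))

private theorem reach_rr {m : ℕ} (hm : 1 ≤ m) : nb m + kk m + scl m 0 ≤ rr m := by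
  have h1 : rr m = 2 ^ m * nb m := by
    unfold rr nb
    rw [← pow_add]
    congr 1
    ring
  have h2 : nb m = 2 ^ (2 * m) * kk m := by
    unfold nb kk
    rw [← pow_add]
    congr 1
    ring
  have h3 : kk m = 2 ^ m * scl m 0 := by
    unfold kk scl
    rw [← pow_add]
    congr 1
    rw [Nat.sub_zero]
    ring
  have h4 : 2 ≤ 2 ^ m := by
    calc 2 = 2 ^ 1 := rfl
      _ ≤ 2 ^ m := Nat.pow_le_pow_right (by norm_num) hm
  have h5 : 4 ≤ 2 ^ (2 * m) := by
    calc 4 = 2 ^ 2 := rfl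
      _ ≤ 2 ^ (2 * m) := Nat.pow_le_pow_right (by norm_num) (by omega)
  have h6 : 2 * nb m ≤ rr m := by
    rw [h1]
    exact Nat.mul_le_mul_right _ h4
  have h7 : 4 * kk m ≤ nb m := by
    rw [h2]
    exact Nat.mul_le_mul_right _ h5
  have h8 : 2 * scl m 0 ≤ kk m := by
    conv_rhs => rw [h3]
    exact Nat.mul_le_mul_right _ h4
  omega

/-- points `base` plus small combinations -/
private theorem reach_base {m : ℕ} (hm : 1 ≤ m) (a : Fin m → ℤ) (ha : ∀ l, |a l| ≤ (nb m : ℤ))
    (k : ℕ) (hk : k ≤ kk m) (ε w : Cub m) (c : ℕ → Fin m → ℤ)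
    (hc : ∀ i l, |c i l| ≤ (scl m i : ℤ)) (t : ℕ) (ht : t < 2) :
    base a k ε + (∑ i ∈ Finset.range (m + 1), ∑ l, (c i l : ℝ) • cyl i w l) + (t : ℝ) • dlt w ∈
      Mset m := by
  have hR := reach_rr hm
  have e : base a k ε + (∑ i ∈ Finset.range (m + 1), ∑ l, (c i l : ℝ) • cyl i w l) +
      (t : ℝ) • dlt w =
      pt w (fun i l => if (i : ℕ) = 0 then a l + k * sgi l ε + c 0 l else c i l) t := by
    unfold base pt
    congr 1
    rw [ee_eq_sum ε w, Finset.smul_sum, Finset.sum_range_succ', Fin.sum_univ_succ,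
      ← add_assoc]
    have e1 : ∀ i : Fin m, ∑ l, (((if ((i.succ : Fin (m + 1)) : ℕ) = 0 then
        a l + k * sgi l ε + c 0 l else c (i.succ : Fin (m + 1)) l : ℤ) : ℝ) • cyl (i.succ : Fin (m + 1)) w l) =
        ∑ l, (c (i + 1) l : ℝ) • cyl (i + 1) w l := by
      intro i
      refine Finset.sum_congr rfl fun l _ => ?_
      rw [if_neg (by simp)]
      rfl
    rw [Finset.sum_congr rfl fun i _ => e1 i,
      Finset.sum_range (fun i => ∑ l, (c (i + 1) l : ℝ) • cyl (i + 1) w l)]
    have e2 : ∑ l, (((if ((0 : Fin (m + 1)) : ℕ) = 0 then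
        a l + k * sgi l ε + c 0 l else c ((0 : Fin (m + 1)) : ℕ) l : ℤ) : ℝ) •
          cyl ((0 : Fin (m + 1)) : ℕ) w l) =
        (∑ l, (a l : ℝ) • cyl 0 (fun _ => false) l) +
          (∑ l, (k : ℝ) • (((sgi l ε : ℤ) : ℝ) • cyl 0 w l)) +
          ∑ l, (c 0 l : ℝ) • cyl 0 w l := by
      rw [← Finset.sum_add_distrib, ← Finset.sum_add_distrib]
      refine Finset.sum_congr rfl fun l _ => ?_
      rw [cyl_zero (fun _ => false) w l]
      show ((if ((0 : Fin (m + 1)) : ℕ) = 0 then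
        a l + k * sgi l ε + c 0 l else c ((0 : Fin (m + 1)) : ℕ) l : ℤ) : ℝ) • cyl 0 w l = _
      rw [if_pos (by simp)]
      push_cast
      rw [add_smul, add_smul, mul_smul]
    rw [e2]
    abel
  rw [e]
  refine reach_mset w _ t ht fun i l => ?_
  split_ifs with h
  · have h1 := ha l
    have h2 := hc 0 l
    have h3 : |(k : ℤ) * sgi l ε| ≤ (kk m : ℤ) := by
      rw [abs_mul]
      have : |sgi l ε| = 1 := by
        unfold sgi
        split_ifs <;> rfl
      rw [this, mul_one, Nat.abs_cast]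
      exact_mod_cast hk
    have h4 : |a l + k * sgi l ε + c 0 l| ≤ |a l| + |(k : ℤ) * sgi l ε| + |c 0 l| :=
      (abs_add_le _ _).trans (add_le_add_left (abs_add_le _ _) _)
    have h5 : ((nb m : ℤ) + kk m + scl m 0) ≤ rr m := by exact_mod_cast hR
    linarith
  · have h1 := hc i l
    have h2 : (scl m i : ℤ) ≤ scl m 0 := by exact_mod_cast reach_scl (m := m) i
    have h5 : ((nb m : ℤ) + kk m + scl m 0) ≤ rr m := by exact_mod_cast hR
    have h6 : (0 : ℤ) ≤ nb m := by positivity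
    have h7 : (0 : ℤ) ≤ kk m := by positivity
    linarith

theorem base_mem {m : ℕ} (hm : 1 ≤ m) (a : Fin m → ℤ) (ha : ∀ l, |a l| ≤ (nb m : ℤ)) (k : ℕ)
    (hk : k ≤ kk m) (ε : Cub m) : base a k ε ∈ Mset m := by
  have := reach_base hm a ha k hk ε (fun _ => false) (fun _ _ => 0) (fun i l => by simp) 0
    (by norm_num)
  simpa using this

theorem reach_mem {m : ℕ} (hm : 1 ≤ m) (a : Fin m → ℤ) (ha : ∀ l, |a l| ≤ (nb m : ℤ)) (k : ℕ)
    (hk : k ≤ kk m) (ε w : Cub m) (x : Vec m) (hx : Rch (lst w m) (base a k ε) x) :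
    x ∈ Mset m ∧ x + dlt w ∈ Mset m := by
  obtain ⟨c, hc, rfl⟩ := reach_lst w m _ x hx
  constructor
  · have := reach_base hm a ha k hk ε w c hc 0 (by norm_num)
    simpa using this
  · have := reach_base hm a ha k hk ε w c hc 1 (by norm_num)
    simpa using this

/-- points reached from `0` by the big box are the points `base a 0 ε` -/
theorem reach_box {m : ℕ} (w x : Vec m) (v : Cub m)
    (hx : Rch ((List.finRange m).map (fun l => (nb m, cyl 0 v l))) w x) :
    ∃ a : Fin m → ℤ, (∀ l, |a l| ≤ (nb m : ℤ)) ∧ x = w + ∑ l, (a l : ℝ) • cyl 0 v l := by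
  have hx' : Rch ((List.finRange m).map (fun l => (nb m, cyl 0 v l)) ++ []) w x := by
    rw [List.append_nil]
    exact hx
  obtain ⟨a, ha, hr⟩ := reach_fin _ _ _ _ _ hx'
  exact ⟨a, ha, hr⟩

end Pool.PolyDim
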