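import Pool.Agent.Work.MP_b0293a_gt.Neg.Lin
import Pool.Agent.Work.MP_b0293a_gt.Neg.Khin
import Pool.Agent.Work.MP_b0293a_gt.Neg.Four
import Pool.Agent.Work.MP_b0293a_gt.Neg.Cert
import Pool.Agent.Work.MP_b0293a_gt.Neg.Reach

/-!
# The dimension bound (Steps 2 and 3)
-/

set_option autoImplicit false

namespace Pool.PolyDim

open Finset

/-- McShane extension from a finite set -/
theorem core_ext {m : ℕ} (M : Finset (Vec m)) (hM : M.Nonempty) (g : Vec m → ℝ)
    (hg : ∀ z ∈ M, ∀ z' ∈ M, |g z - g z'| ≤ nrm (z - z')) :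
    ∃ f : Vec m → ℝ, Lip f ∧ ∀ z ∈ M, f z = g z := by
  refine ⟨fun x => M.inf' hM (fun y => g y + nrm (x - y)), ?_, ?_⟩
  · have key : ∀ x x' : Vec m, M.inf' hM (fun y => g y + nrm (x - y))
        ≤ M.inf' hM (fun y => g y + nrm (x' - y)) + nrm (x - x') := by
      intro x x'
      obtain ⟨y, hy, hy'⟩ := Finset.exists_mem_eq_inf' hM (fun y => g y + nrm (x' - y))
      rw [hy']
      refine le_trans (Finset.inf'_le (fun y => g y + nrm (x - y)) hy) ?_
      have e : x - y = (x - x') + (x' - y) := by abel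
      have h := nrm_add_le (x - x') (x' - y)
      show g y + nrm (x - y) ≤ g y + nrm (x' - y) + nrm (x - x')
      rw [e]
      linarith
    intro x x'
    have h1 := key x x'
    have h2 := key x' x
    have e : nrm (x' - x) = nrm (x - x') := by
      rw [← nrm_neg, neg_sub]
    rw [e] at h2
    rw [abs_le]
    constructor <;> linarith
  · intro z hz
    apply le_antisymm
    · have h : M.inf' hM (fun y => g y + nrm (z - y)) ≤ g z + nrm (z - z) :=
        Finset.inf'_le (fun y => g y + nrm (z - y)) hz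
      have e : nrm (z - z) = 0 := by
        unfold nrm; simp
      rw [e, add_zero] at h
      exact h
    · apply Finset.le_inf'
      intro y hy
      have h := (abs_le.mp (hg z hz y hy)).2
      linarith

theorem core_large (n : ℕ) (C : ℝ) : ∃ m0 : ℕ, ∀ m : ℕ, m0 ≤ m → C * (m : ℝ) ^ n ≤ 2 ^ m := by
  have h := tendsto_pow_const_div_const_pow_of_one_lt n (show (1 : ℝ) < 2 by norm_num)
  have hC : (0 : ℝ) < 1 / (|C| + 1) := by positivity
  have h2 := (h.eventually (gt_mem_nhds hC))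
  rw [Filter.eventually_atTop] at h2
  obtain ⟨m0, hm0⟩ := h2
  refine ⟨m0, fun m hm => ?_⟩
  have h3 := hm0 m hm
  rw [div_lt_div_iff₀ (by positivity) (by positivity)] at h3
  have h4 : C * (m : ℝ) ^ n ≤ (|C| + 1) * (m : ℝ) ^ n := by
    apply mul_le_mul_of_nonneg_right _ (by positivity)
    linarith [le_abs_self C]
  linarith

/-- the averaged slope functions -/
noncomputable def slp {m : ℕ} (W : Vec m → ℝ) (w : Cub m) (z : Vec m) : ℝ :=
  avgs (lst w m) (dif W (dlt w)) z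

theorem slp_le {m : ℕ} (W : Vec m → ℝ) (hW : Lip W) (w : Cub m) (z : Vec m) : |slp W w z| ≤ 1 := by
  refine avgs_bound _ _ 1 (fun y => ?_) z
  have := level_dif_le W hW (dlt w) y
  rwa [nrm_dlt] at this

theorem base_eq {m : ℕ} (a : Fin m → ℤ) (k : ℕ) (ε : Cub m) :
    base a k ε = base a 0 ε + (k : ℝ) • ee ε := by
  unfold base
  simp

/-- the lower bound at one base point and one sign vector -/
theorem core_one {m k : ℕ} (hm : 1 ≤ m) (D : ℝ) (hD : 1 ≤ D) 
    (hbig : 8 * D * 100 * (m : ℝ) ^ 3 ≤ 7 * 2 ^ m)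
    (W : Fin k → Vec m → ℝ)
    (hc : ∀ x ∈ Mset m, ∀ y ∈ Mset m, ∃ c : Fin k → ℝ, (∀ i, |c i| ≤ 1) ∧
      (∀ z ∈ Mset m, ∀ z' ∈ Mset m, |∑ i, c i * (W i z - W i z')| ≤ nrm (z - z')) ∧
      nrm (x - y) / D ≤ ∑ i, c i * (W i x - W i y))
    (ε : Cub m) (η : ℕ → ℝ) (Bf : Cub m → ℝ)
    (hB : ∑ w, |Bf w| ≤ 2 ^ m * (1 / (4 * D)))
    (hid : ∀ w, ee ε w / Real.sqrt m
      = Bf w + ∑ S : Finset (Fin m), η S.card * (chi S ε * chi S w))
    (a : Fin m → ℤ) (ha : ∀ l, |a l| ≤ (nb m : ℤ)) :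
    2 ^ m * (1 / (4 * D)) ≤ ∑ i, (∑ n ∈ Finset.range (kk m),
      |∑ w, (∑ S : Finset (Fin m), η S.card * (chi S ε * chi S w))
        * slp (W i) w (base a 0 ε + (n : ℝ) • ee ε)|) / kk m := by
  set K : ℕ := kk m with hK
  have hK0 : (0 : ℝ) < K := by
    have : 0 < K := by rw [hK]; unfold kk; positivity
    exact_mod_cast this
  set A : Vec m := base a 0 ε with hA
  set h : Cub m → ℝ := fun w => ∑ S : Finset (Fin m), η S.card * (chi S ε * chi S w) with hh
  have hAmem : A ∈ Mset m := base_mem hm a ha 0 (Nat.zero_le _) ε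
  have hxmem : A + (K : ℝ) • ee ε ∈ Mset m := by
    rw [hA, ← base_eq]
    exact base_mem hm a ha K le_rfl ε
  obtain ⟨c, hc1, hc2, hc3⟩ := hc _ hxmem _ hAmem
  obtain ⟨f, hf, hfM⟩ := core_ext (Mset m) ⟨A, hAmem⟩ (fun z => ∑ i, c i * W i z) (by
    intro z hz z' hz'
    have := hc2 z hz z' hz'
    have e : ∑ i, c i * W i z - ∑ i, c i * W i z' = ∑ i, c i * (W i z - W i z') := by
      rw [← Finset.sum_sub_distrib]
      exact Finset.sum_congr rfl (fun i _ => by ring)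
    rw [e]; exact this)
  -- slopes of f
  have hslope : ∀ w : Cub m, ∀ n ∈ Finset.range K, avgs (lst w m) (dif f (dlt w)) (A + (n : ℝ) • ee ε)
      = ∑ i, c i * slp (W i) w (A + (n : ℝ) • ee ε) := by
    intro w n hn
    have hn' : n ≤ K := (Finset.mem_range.mp hn).le
    have e1 : avgs (lst w m) (dif f (dlt w)) (A + (n : ℝ) • ee ε)
        = avgs (lst w m) (fun y => ∑ i, c i * dif (W i) (dlt w) y) (A + (n : ℝ) • ee ε) := by
      apply avgs_congr_reach
      intro x hx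
      rw [hA, ← base_eq] at hx
      obtain ⟨h1, h2⟩ := reach_mem hm a ha n hn' ε w x hx
      unfold dif
      rw [hfM _ h1, hfM _ h2, ← Finset.sum_sub_distrib]
      exact Finset.sum_congr rfl (fun i _ => by ring)
    rw [e1, avgs_sum]
    refine Finset.sum_congr rfl (fun i _ => ?_)
    rw [avgs_mul]
    rfl
  set ψ : Cub m → ℝ := fun w => (∑ n ∈ Finset.range K,
        avgs (lst w m) (dif f (dlt w)) (A + (n : ℝ) • ee ε)) / K with hψ
  have hψ1 : ∀ w, |ψ w| ≤ 1 := by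
    intro w
    simp only [hψ]
    rw [abs_div, abs_of_pos hK0, div_le_one hK0]
    refine le_trans (Finset.abs_sum_le_sum_abs _ _) ?_
    refine le_trans (Finset.sum_le_sum (fun n _ => slp_le f hf w _)) ?_
    simp
  have hlin := lin hm f hf ε A
  -- lower bound for the left side
  have hnorm : nrm (ee ε) / D ≤ (f (A + (K : ℝ) • ee ε) - f A) / K := by
    rw [hfM _ hxmem, hfM _ hAmem, le_div_iff₀ hK0, ← Finset.sum_sub_distrib]
    have e1 : A + (K : ℝ) • ee ε - A = (K : ℝ) • ee ε := by abel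
    rw [e1, nrm_smul, abs_of_pos hK0] at hc3
    have e2 : ∑ i, (c i * W i (A + (K : ℝ) • ee ε) - c i * W i A)
        = ∑ i, c i * (W i (A + (K : ℝ) • ee ε) - W i A) :=
      Finset.sum_congr rfl (fun i _ => by ring)
    rw [e2]
    refine le_trans (le_of_eq ?_) hc3
    ring
  have hkh := nrm_ee_ge ε
  have hM1 : (1 : ℝ) ≤ m := by exact_mod_cast hm
  have hs1 : 1 ≤ Real.sqrt m := Real.one_le_sqrt.mpr hM1
  have hs0 : 0 < Real.sqrt m := by linarith
  have hD0 : 0 < D := by linarith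
  have hsq3 : (57 / 100) * Real.sqrt m ≤ Real.sqrt (m / 3) := by
    have e : Real.sqrt ((57 / 100) ^ 2 * m) = (57 / 100) * Real.sqrt m := by
      rw [Real.sqrt_mul (by positivity), Real.sqrt_sq (by norm_num)]
    rw [← e]
    apply Real.sqrt_le_sqrt
    have : (0 : ℝ) ≤ m := by positivity
    nlinarith
  have h2m : (0 : ℝ) < 2 ^ m := by positivity
  have hmain : 2 ^ m * Real.sqrt m * (1 / (2 * D)) ≤ ∑ w, ee ε w * ψ w := by
    refine le_trans ?_ hlin
    have h1 : (2 : ℝ) ^ m * ((57 / 100) * Real.sqrt m) / D ≤ nrm (ee ε) / D := by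
      apply div_le_div_of_nonneg_right _ hD0.le
      refine le_trans ?_ hkh
      exact mul_le_mul_of_nonneg_left hsq3 h2m.le
    have h2 : 8 * (m : ℝ) ^ 3 ≤ 2 ^ m * ((7 / 100) * Real.sqrt m) / D := by
      rw [le_div_iff₀ hD0]
      have : 2 ^ m * ((7 / 100) * 1) ≤ 2 ^ m * ((7 / 100) * Real.sqrt m) := by
        apply mul_le_mul_of_nonneg_left _ h2m.le
        linarith
      refine le_trans ?_ this
      linarith
    have h3 : 2 ^ m * Real.sqrt m * (1 / (2 * D))
        = (2 : ℝ) ^ m * ((57 / 100) * Real.sqrt m) / D - 2 ^ m * ((7 / 100) * Real.sqrt m) / D := by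
      field_simp; ring
    rw [h3]
    linarith
  -- insert the certificate
  have hsum1 : ∑ w, ee ε w * ψ w = Real.sqrt m * (∑ w, Bf w * ψ w + ∑ w, h w * ψ w) := by
    rw [← Finset.sum_add_distrib, Finset.mul_sum]
    refine Finset.sum_congr rfl (fun w _ => ?_)
    have := hid w
    rw [div_eq_iff (ne_of_gt hs0)] at this
    rw [this]
    ring
  have hBψ : ∑ w, Bf w * ψ w ≤ 2 ^ m * (1 / (4 * D)) := by
    refine le_trans (Finset.sum_le_sum (fun w _ => ?_)) hB
    calc Bf w * ψ w ≤ |Bf w * ψ w| := le_abs_self _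
      _ = |Bf w| * |ψ w| := abs_mul _ _
      _ ≤ |Bf w| * 1 := mul_le_mul_of_nonneg_left (hψ1 w) (abs_nonneg _)
      _ = |Bf w| := mul_one _
  have hhψ : 2 ^ m * (1 / (4 * D)) ≤ ∑ w, h w * ψ w := by
    rw [hsum1] at hmain
    have e1 : 2 ^ m * Real.sqrt m * (1 / (2 * D)) = Real.sqrt m * (2 ^ m * (1 / (2 * D))) := by ring
    rw [e1] at hmain
    have h1 := le_of_mul_le_mul_left hmain hs0
    have e2 : 2 ^ m * (1 / (2 * D)) = 2 ^ m * (1 / (4 * D)) + (2 : ℝ) ^ m * (1 / (4 * D)) := by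
      field_simp; ring
    linarith
  refine le_trans hhψ ?_
  have hexp : ∑ w, h w * ψ w = ∑ i, c i * ((∑ n ∈ Finset.range K,
      ∑ w, h w * slp (W i) w (A + (n : ℝ) • ee ε)) / K) := by
    have e1 : ∀ w, h w * ψ w = ∑ i, c i * ((∑ n ∈ Finset.range K, h w * slp (W i) w (A + (n : ℝ) • ee ε)) / K) := by
      intro w
      simp only [hψ]
      rw [Finset.sum_congr rfl (hslope w), Finset.sum_comm, Finset.sum_div, Finset.mul_sum]
      refine Finset.sum_congr rfl (fun i _ => ?_)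
      rw [← Finset.mul_sum, ← Finset.mul_sum]
      ring
    rw [Finset.sum_congr rfl (fun w _ => e1 w), Finset.sum_comm]
    refine Finset.sum_congr rfl (fun i _ => ?_)
    rw [← Finset.mul_sum, ← Finset.sum_div, Finset.sum_comm]
  rw [hexp]
  refine Finset.sum_le_sum (fun i _ => ?_)
  calc c i * ((∑ n ∈ Finset.range K, ∑ w, h w * slp (W i) w (A + (n : ℝ) • ee ε)) / K)
      ≤ |c i * ((∑ n ∈ Finset.range K, ∑ w, h w * slp (W i) w (A + (n : ℝ) • ee ε)) / K)| := le_abs_self _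
    _ = |c i| * (|∑ n ∈ Finset.range K, ∑ w, h w * slp (W i) w (A + (n : ℝ) • ee ε)| / K) := by
        rw [abs_mul, abs_div, abs_of_pos hK0]
    _ ≤ 1 * (|∑ n ∈ Finset.range K, ∑ w, h w * slp (W i) w (A + (n : ℝ) • ee ε)| / K) := by
        apply mul_le_mul_of_nonneg_right (hc1 i)
        positivity
    _ ≤ (∑ n ∈ Finset.range K, |∑ w, h w * slp (W i) w (A + (n : ℝ) • ee ε)|) / K := by
        rw [one_mul]
        apply div_le_div_of_nonneg_right _ hK0.le
        exact Finset.abs_sum_le_sum_abs _ _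

/-- averaging over the big box, one sign vector, one coordinate -/
theorem core_box {m : ℕ} (hm : 1 ≤ m) (ε : Cub m) (Ψ : Vec m → ℝ) (H : ℝ) (hH0 : 0 ≤ H)
    (hΨ0 : ∀ z, 0 ≤ Ψ z) (hΨ : ∀ z, Ψ z ≤ H) (n : ℕ) (hn : n ≤ kk m) :
    avgs ((List.finRange m).map (fun l => (nb m, cyl 0 (fun _ : Fin m => false) l))) Ψ ((n : ℝ) • ee ε)
      ≤ avgs ((List.finRange m).map (fun l => (nb m, cyl 0 (fun _ : Fin m => false) l))) Ψ 0
        + m * H / 4 ^ m := by
  set Lb : List (ℕ × Vec m) := (List.finRange m).map (fun l => (nb m, cyl 0 (fun _ : Fin m => false) l)) with hLb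
  have hmem : ∀ l, (nb m, cyl 0 (fun _ : Fin m => false) l) ∈ Lb := by
    intro l
    exact List.mem_map.mpr ⟨l, List.mem_finRange l, rfl⟩
  have hb : ∀ z, |Ψ z| ≤ H := fun z => by rw [abs_of_nonneg (hΨ0 z)]; exact hΨ z
  have h := shift_sum (avgs Lb Ψ) (2 * H / (2 * (nb m : ℝ) + 1)) (fun l => cyl 0 (fun _ : Fin m => false) l)
    (fun l y => avgs_mem_shift Lb (nb m) _ (hmem l) Ψ H hb y) (fun l => (n : ℤ) * sgi l ε) 0
  have e1 : (0 : Vec m) + ∑ l, (((n : ℤ) * sgi l ε : ℤ) : ℝ) • cyl 0 (fun _ : Fin m => false) l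
      = (n : ℝ) • ee ε := by
    rw [zero_add, ee_eq_sum ε (fun _ => false), Finset.smul_sum]
    refine Finset.sum_congr rfl (fun l _ => ?_)
    push_cast
    rw [smul_smul]
  rw [e1] at h
  have e2 : ∑ l : Fin m, |(((n : ℤ) * sgi l ε : ℤ) : ℝ)| = m * n := by
    have : ∀ l ∈ (Finset.univ : Finset (Fin m)), |(((n : ℤ) * sgi l ε : ℤ) : ℝ)| = n := by
      intro l _
      push_cast
      rw [abs_mul, sgi_abs, mul_one]
      exact abs_of_nonneg (by positivity)
    rw [Finset.sum_congr rfl this]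
    simp
  rw [e2] at h
  have h1 := (abs_le.mp h).2
  have h2 : (m : ℝ) * n * (2 * H / (2 * (nb m : ℝ) + 1)) ≤ m * H / 4 ^ m := by
    have e3 : (nb m : ℝ) = kk m * 4 ^ m := by
      unfold nb kk
      push_cast
      have : (4 : ℝ) = 2 ^ 2 := by norm_num
      rw [this, ← pow_mul, ← pow_add]
      congr 1
      ring
    have hn' : (n : ℝ) ≤ kk m := by exact_mod_cast hn
    have hkk : (0 : ℝ) < kk m := by
      have : 0 < kk m := by unfold kk; positivity
      exact_mod_cast this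
    have h4 : (0 : ℝ) < 4 ^ m := by positivity
    calc (m : ℝ) * n * (2 * H / (2 * (nb m : ℝ) + 1))
        ≤ m * kk m * (2 * H / (2 * (nb m : ℝ))) := by
          apply mul_le_mul
          · exact mul_le_mul_of_nonneg_left hn' (by positivity)
          · apply div_le_div_of_nonneg_left (by positivity) (by rw [e3]; positivity) (by linarith)
          · positivity
          · positivity
      _ = m * H / 4 ^ m := by
          rw [e3]; field_simp
  linarith

theorem core (J : ℕ) (hJ : 1 ≤ J) (D : ℝ) (hD : 1 ≤ D) :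
    ∃ κ : ℝ, 0 < κ ∧ ∃ m0 : ℕ, ∀ m : ℕ, m0 ≤ m → ∀ k : ℕ, HasCoord m k D →
      κ * (m : ℝ) ^ J ≤ k := by
  have hD0 : 0 < D := by linarith
  obtain ⟨C1, m1, hC1, hcert⟩ := cert J hJ (1 / (4 * D)) (by positivity)
  obtain ⟨m2, hm2⟩ := core_large 3 (8 * D * 100 / 7)
  obtain ⟨m3, hm3⟩ := core_large (J + 2) 2
  refine ⟨1 / (4 * D) / (C1 + 1), by positivity, m1 + m2 + m3 + 1, ?_⟩
  intro m hm k hk
  have hm1 : 1 ≤ m := by omega
  have hM1 : (1 : ℝ) ≤ m := by exact_mod_cast hm1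
  obtain ⟨η, Bf, hη, hBf, hid⟩ := hcert m (by omega) hm1
  obtain ⟨W, hW, hc⟩ := hk
  have hbig : 8 * D * 100 * (m : ℝ) ^ 3 ≤ 7 * 2 ^ m := by
    have := hm2 m (by omega)
    have e : 8 * D * 100 * (m : ℝ) ^ 3 = 7 * (8 * D * 100 / 7 * (m : ℝ) ^ 3) := by ring
    rw [e]
    linarith
  have h2m : (0 : ℝ) < 2 ^ m := by positivity
  have hmJ : (0 : ℝ) < (m : ℝ) ^ J := by positivity
  set δ : ℝ := C1 / (m : ℝ) ^ J with hδ
  have hδ0 : 0 ≤ δ := by rw [hδ]; positivity
  set Ψ : Fin k → Cub m → Vec m → ℝ := fun i ε z =>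
    |∑ w, (∑ S : Finset (Fin m), η S.card * (chi S ε * chi S w)) * slp (W i) w z| with hΨ
  -- bound of Ψ
  set H : ℝ := 2 ^ m * (2 * m) with hH
  have hH0 : 0 ≤ H := by rw [hH]; positivity
  have hs1 : 1 ≤ Real.sqrt m := Real.one_le_sqrt.mpr hM1
  have hΨH : ∀ i ε z, Ψ i ε z ≤ H := by
    intro i ε z
    simp only [hΨ]
    refine le_trans (Finset.abs_sum_le_sum_abs _ _) ?_
    have h1 : ∀ w ∈ (Finset.univ : Finset (Cub m)),
        |(∑ S : Finset (Fin m), η S.card * (chi S ε * chi S w)) * slp (W i) w z|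
          ≤ m + |Bf ε w| := by
      intro w _
      rw [abs_mul]
      have e := hid ε w
      have e' : ∑ S : Finset (Fin m), η S.card * (chi S ε * chi S w)
          = ee ε w / Real.sqrt m - Bf ε w := by linarith
      rw [e']
      have h2 : |ee ε w / Real.sqrt m - Bf ε w| ≤ m + |Bf ε w| := by
        refine le_trans (abs_sub _ _) ?_
        have : |ee ε w / Real.sqrt m| ≤ m := by
          rw [abs_div, abs_of_pos (by linarith : 0 < Real.sqrt m)]
          refine le_trans (div_le_self (abs_nonneg _) hs1) (ee_abs_le ε w)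
        linarith
      calc |ee ε w / Real.sqrt m - Bf ε w| * |slp (W i) w z|
          ≤ |ee ε w / Real.sqrt m - Bf ε w| * 1 :=
            mul_le_mul_of_nonneg_left (slp_le (W i) (hW i) w z) (abs_nonneg _)
        _ ≤ m + |Bf ε w| := by rw [mul_one]; exact h2
    refine le_trans (Finset.sum_le_sum h1) ?_
    rw [Finset.sum_add_distrib]
    have h3 := hBf ε
    have h4 : ∑ _w : Cub m, (m : ℝ) = 2 ^ m * m := by
      simp [Cub]
    rw [h4, hH]
    have h5 : (2 : ℝ) ^ m * (1 / (4 * D)) ≤ 2 ^ m * m := by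
      apply mul_le_mul_of_nonneg_left _ h2m.le
      refine le_trans ?_ hM1
      rw [div_le_one (by positivity)]
      linarith
    linarith
  have hΨ0 : ∀ i ε z, 0 ≤ Ψ i ε z := fun i ε z => abs_nonneg _
  set K : ℕ := kk m with hK
  have hK0 : (0 : ℝ) < K := by
    have : 0 < K := by rw [hK]; unfold kk; positivity
    exact_mod_cast this
  set Lb : List (ℕ × Vec m) := (List.finRange m).map (fun l => (nb m, cyl 0 (fun _ : Fin m => false) l)) with hLb
  -- one sign vector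
  have hone : ∀ ε : Cub m, 2 ^ m * (1 / (4 * D)) ≤ ∑ i, (avgs Lb (Ψ i ε) 0 + m * H / 4 ^ m) := by
    intro ε
    have h1 : avgs Lb (fun _ => 2 ^ m * (1 / (4 * D))) 0
        ≤ avgs Lb (fun z => ∑ i, ∑ n ∈ Finset.range K, (1 / (K : ℝ)) * Ψ i ε (z + (n : ℝ) • ee ε)) 0 := by
      apply avgs_mono_reach
      intro x hx
      obtain ⟨a, ha, hxa⟩ := reach_box (0 : Vec m) x (fun _ => false) hx
      have hxb : x = base a 0 ε := by
        rw [hxa]; unfold base; simp
      have h2 := core_one hm1 D hD hbig W hc ε η (Bf ε) (hBf ε) (hid ε) a ha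
      refine le_trans h2 (le_of_eq ?_)
      refine Finset.sum_congr rfl (fun i _ => ?_)
      rw [Finset.sum_div, hxb]
      refine Finset.sum_congr rfl (fun n _ => ?_)
      simp only [hΨ]
      ring
    rw [avgs_const] at h1
    refine le_trans h1 ?_
    rw [avgs_sum]
    refine Finset.sum_le_sum (fun i _ => ?_)
    rw [avgs_sum]
    have h3 : ∀ n ∈ Finset.range K, avgs Lb (fun z => (1 / (K : ℝ)) * Ψ i ε (z + (n : ℝ) • ee ε)) 0
        ≤ (1 / (K : ℝ)) * (avgs Lb (Ψ i ε) 0 + m * H / 4 ^ m) := by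
      intro n hn
      rw [avgs_mul Lb (1 / (K : ℝ)) (fun z => Ψ i ε (z + (n : ℝ) • ee ε)), avgs_trans, zero_add]
      apply mul_le_mul_of_nonneg_left _ (by positivity)
      exact core_box hm1 ε (Ψ i ε) H hH0 (hΨ0 i ε) (hΨH i ε) n (Finset.mem_range.mp hn).le
    refine le_trans (Finset.sum_le_sum h3) (le_of_eq ?_)
    rw [Finset.sum_const, Finset.card_range, nsmul_eq_mul]
    field_simp
  -- sum over the signs
  have hcardc : (Finset.univ : Finset (Cub m)).card = 2 ^ m := by simp [Cub]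
  have hall : (2 : ℝ) ^ m * (2 ^ m * (1 / (4 * D)))
      ≤ ∑ i : Fin k, (2 ^ m * (2 ^ m * δ) + 2 ^ m * (m * H / 4 ^ m)) := by
    have h1 : ∑ _ε : Cub m, (2 : ℝ) ^ m * (1 / (4 * D))
        ≤ ∑ ε : Cub m, ∑ i, (avgs Lb (Ψ i ε) 0 + m * H / 4 ^ m) :=
      Finset.sum_le_sum (fun ε _ => hone ε)
    rw [Finset.sum_const, hcardc, nsmul_eq_mul] at h1
    push_cast at h1
    refine le_trans h1 ?_
    rw [Finset.sum_comm]
    refine Finset.sum_le_sum (fun i _ => ?_)
    rw [Finset.sum_add_distrib, Finset.sum_const, hcardc, nsmul_eq_mul]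
    push_cast
    have h2 : ∑ ε : Cub m, avgs Lb (Ψ i ε) 0 ≤ 2 ^ m * (2 ^ m * δ) := by
      rw [← avgs_sum Finset.univ Lb (fun ε => Ψ i ε)]
      have h3 : avgs Lb (fun y => ∑ ε : Cub m, Ψ i ε y) 0
          ≤ avgs Lb (fun _ => 2 ^ m * (2 ^ m * δ)) 0 := by
        apply avgs_mono_reach
        intro x _
        exact parseval_bound η δ hδ0 hη (fun w => slp (W i) w x) (fun w => slp_le (W i) (hW i) w x)
      rwa [avgs_const] at h3
    linarith
  rw [Finset.sum_const, Finset.card_univ, Fintype.card_fin, nsmul_eq_mul] at hall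
  have h4m : (4 : ℝ) ^ m = 2 ^ m * 2 ^ m := by
    rw [← mul_pow]; norm_num
  have hsmall : (m : ℝ) * (2 * m) / 4 ^ m ≤ 1 / (m : ℝ) ^ J := by
    rw [div_le_div_iff₀ (by positivity) hmJ, h4m, one_mul]
    have h1 := hm3 m (by omega)
    have h2 : (1 : ℝ) ≤ 2 ^ m := one_le_pow₀ (by norm_num)
    have e : (m : ℝ) * (2 * m) * (m : ℝ) ^ J = 2 * (m : ℝ) ^ (J + 2) := by ring
    rw [e]
    nlinarith
  have e1 : 2 ^ m * (2 ^ m * δ) + 2 ^ m * (m * H / 4 ^ m)
      = (2 ^ m * 2 ^ m) * (δ + (m : ℝ) * (2 * m) / 4 ^ m) := by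
    rw [hH]; ring
  rw [e1] at hall
  have e2 : (2 : ℝ) ^ m * (2 ^ m * (1 / (4 * D))) = (2 ^ m * 2 ^ m) * (1 / (4 * D)) := by ring
  have e3 : (k : ℝ) * ((2 ^ m * 2 ^ m) * (δ + (m : ℝ) * (2 * m) / 4 ^ m))
      = (2 ^ m * 2 ^ m) * (k * (δ + (m : ℝ) * (2 * m) / 4 ^ m)) := by ring
  rw [e2, e3] at hall
  have h5 : 1 / (4 * D) ≤ k * (δ + (m : ℝ) * (2 * m) / 4 ^ m) :=
    le_of_mul_le_mul_left hall (by positivity)
  have h6 : (k : ℝ) * (δ + (m : ℝ) * (2 * m) / 4 ^ m) ≤ k * ((C1 + 1) / (m : ℝ) ^ J) := by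
    apply mul_le_mul_of_nonneg_left _ (by positivity)
    rw [hδ]
    have : (C1 + 1) / (m : ℝ) ^ J = C1 / (m : ℝ) ^ J + 1 / (m : ℝ) ^ J := by ring
    rw [this]
    linarith
  have h7 := le_trans h5 h6
  have e4 : (k : ℝ) * ((C1 + 1) / (m : ℝ) ^ J) = k * (C1 + 1) / (m : ℝ) ^ J := by ring
  rw [e4, le_div_iff₀ hmJ] at h7
  have e5 : 1 / (4 * D) / (C1 + 1) * (m : ℝ) ^ J = (1 / (4 * D) * (m : ℝ) ^ J) / (C1 + 1) := by ring
  rw [e5, div_le_iff₀ (by linarith)]
  exact h7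

end Pool.PolyDim
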