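import Mathlib

/-!
# MP_b0293a_gt, negative answer: definitions

The cube `Cub m`, vectors `Vec m` (real functions on the cube) with the counting `l_1` norm `nrm`,
nested subcubes along a path, averaging operators, the point set `Mset m`.
-/

set_option autoImplicit false

namespace Pool.PolyDim

open Finset

/-- the discrete cube -/
abbrev Cub (m : ℕ) : Type := Fin m → Bool

/-- real functions on the cube -/
abbrev Vec (m : ℕ) : Type := Cub m → ℝ

/-- Rademacher functions -/
def rad {m : ℕ} (l : Fin m) (w : Cub m) : ℝ := if w l then -1 else 1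

/-- counting l_1 norm -/
def nrm {m : ℕ} (v : Vec m) : ℝ := ∑ w, |v w|

/-- one-Lipschitz functions for `nrm` -/
def Lip {m : ℕ} (f : Vec m → ℝ) : Prop := ∀ x y, |f x - f y| ≤ nrm (x - y)

/-- `w'` agrees with `w` on the first `j` bits -/
def Agr {m : ℕ} (j : ℕ) (w w' : Cub m) : Prop := ∀ i : Fin m, (i : ℕ) < j → w' i = w i

instance instDecAgr {m : ℕ} (j : ℕ) (w w' : Cub m) : Decidable (Agr j w w') := by
  unfold Agr; infer_instance

/-- the restriction of the `l`-th Rademacher function to the subcube of depth `j` around `w` -/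
def cyl {m : ℕ} (j : ℕ) (w : Cub m) (l : Fin m) : Vec m :=
  fun w' => if Agr j w w' then rad l w' else 0

/-- the vector `∑ ε_l r_l` -/
def ee {m : ℕ} (ε : Cub m) : Vec m := fun w => ∑ l, rad l ε * rad l w

/-- its restriction to the subcube of depth `j` around `w` -/
def uu {m : ℕ} (ε : Cub m) (j : ℕ) (w : Cub m) : Vec m :=
  fun w' => if Agr j w w' then ee ε w' else 0

/-- the atom at `w` -/
def dlt {m : ℕ} (w : Cub m) : Vec m := fun w' => if w' = w then 1 else 0

/-- flip the bit `j` -/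
def flp {m : ℕ} (j : Fin m) (w : Cub m) : Cub m := Function.update w j (!(w j))

/-- average of `φ` over the segment `z + k v`, `-N ≤ k ≤ N` -/
noncomputable def avg1 {V : Type*} [AddCommGroup V] [Module ℝ V] (N : ℕ) (v : V) (φ : V → ℝ) (z : V) : ℝ :=
  (∑ k ∈ Finset.Icc (-(N : ℤ)) N, φ (z + (k : ℝ) • v)) / (2 * N + 1)

/-- iterated averages -/
noncomputable def avgs {V : Type*} [AddCommGroup V] [Module ℝ V] : List (ℕ × V) → (V → ℝ) → V → ℝ
  | [], φ => φ
  | (p :: L), φ => avg1 p.1 p.2 (avgs L φ)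

/-- points reached by the iterated averages -/
def Rch {V : Type*} [AddCommGroup V] [Module ℝ V] : List (ℕ × V) → V → V → Prop
  | [], z, x => x = z
  | (p :: L), z, x => ∃ k : ℤ, |k| ≤ (p.1 : ℤ) ∧ Rch L (z + (k : ℝ) • p.2) x

/-- increments -/
def dif {V : Type*} [AddCommGroup V] (f : V → ℝ) (u : V) : V → ℝ := fun z => f (z + u) - f z

/-- the scales `N_i = q^(2(m-i)+1)`, `q = 2^m` -/
def scl (m i : ℕ) : ℕ := 2 ^ (m * (2 * (m - i) + 1))

/-- the length `K = q N_0` -/
def kk (m : ℕ) : ℕ := 2 ^ (m * (2 * m + 2))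

/-- the big box `N_b = K 4^m` -/
def nb (m : ℕ) : ℕ := 2 ^ (m * (2 * m + 4))

/-- the coefficient bound of the point set -/
def rr (m : ℕ) : ℕ := 2 ^ (m * (2 * m + 5))

/-- the list of averaging directions up to level `j` along the path to `w` -/
def lst {m : ℕ} (w : Cub m) : ℕ → List (ℕ × Vec m)
  | 0 => (List.finRange m).map (fun l => (scl m 0, cyl 0 w l))
  | (j + 1) => (List.finRange m).map (fun l => (scl m (j + 1), cyl (j + 1) w l)) ++ lst w j

/-- sums of integer multiples of the vectors `cyl i w l`, plus possibly one atom -/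
noncomputable def pt {m : ℕ} (w : Cub m) (c : Fin (m + 1) → Fin m → ℤ) (t : ℕ) : Vec m :=
  (∑ i : Fin (m + 1), ∑ l, (c i l : ℝ) • cyl i w l) + (t : ℝ) • dlt w

open Classical in
/-- the point set -/
noncomputable def Mset (m : ℕ) : Finset (Vec m) :=
  ((Finset.univ : Finset (Cub m)) ×ˢ
    ((Fintype.piFinset fun _ : Fin (m + 1) => Fintype.piFinset fun _ : Fin m =>
      Finset.Icc (-(rr m : ℤ)) (rr m)) ×ˢ Finset.range 2)).image (fun p => pt p.1 p.2.1 p.2.2)

/-- what an embedding of `Mset m` with distortion `D` into a `k`-dimensional space gives -/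
def HasCoord (m k : ℕ) (D : ℝ) : Prop :=
  ∃ W : Fin k → Vec m → ℝ, (∀ i, Lip (W i)) ∧
    ∀ x ∈ Mset m, ∀ y ∈ Mset m, ∃ c : Fin k → ℝ, (∀ i, |c i| ≤ 1) ∧
      (∀ z ∈ Mset m, ∀ z' ∈ Mset m, |∑ i, c i * (W i z - W i z')| ≤ nrm (z - z')) ∧
      nrm (x - y) / D ≤ ∑ i, c i * (W i x - W i y)

/-- characters -/
def chi {m : ℕ} (S : Finset (Fin m)) (w : Cub m) : ℝ := ∏ l ∈ S, rad l w

end Pool.PolyDim
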