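import Pool.Agent.Work.MP_b0293a_gt.Neg.Ops
import Pool.Agent.Work.MP_b0293a_gt.Neg.Cube

/-!
# One level of the tree (Claim in Step 1 of the blueprint)

With `s = 2^(2m(m-j))`, so that `N_(j+1) = s/q` and `s = N_j/q` for `q = 2^m`.
-/

set_option autoImplicit false

namespace Pool.PolyDim

open Finset

theorem level_mem {m : ℕ} (w : Cub m) (j : ℕ) (l : Fin m) :
    (scl m j, cyl j w l) ∈ lst w j := by
  cases j with
  | zero =>
    unfold lst
    exact List.mem_map.mpr ⟨l, List.mem_finRange l, rfl⟩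
  | succ j =>
    unfold lst
    rw [List.mem_append]
    exact Or.inl (List.mem_map.mpr ⟨l, List.mem_finRange l, rfl⟩)

theorem level_mem' {m : ℕ} (w : Cub m) (j : ℕ) (l : Fin m) :
    (scl m j, cyl j w l) ∈ lst w (j + 1) := by
  show _ ∈ _ ++ lst w j
  rw [List.mem_append]
  exact Or.inr (level_mem w j l)

theorem level_lip {m : ℕ} (L : List (ℕ × Vec m)) (f : Vec m → ℝ) (hf : Lip f) : Lip (avgs L f) := by
  intro x y
  have h := avgs_inherit L f (x - y) (nrm (x - y)) (fun z => by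
    have := hf (z + (x - y)) z
    simpa using this) y
  simpa using h

theorem level_dif_le {m : ℕ} (f : Vec m → ℝ) (hf : Lip f) (u z : Vec m) :
    |dif f u z| ≤ nrm u := by
  unfold dif
  have := hf (z + u) z
  simpa using this

theorem level_steps {V : Type*} [AddCommGroup V] [Module ℝ V] (g : V → ℝ) (u : V) (κ : ℝ)
    (h : ∀ y, |g (y + u) - g y| ≤ κ) (z : V) (k : ℕ) :
    |g (z + (k : ℝ) • u) - g z| ≤ k * κ := by
  induction k with
  | zero => simp
  | succ k ih =>
    have e : z + ((k + 1 : ℕ) : ℝ) • u = (z + (k : ℝ) • u) + u := by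
      push_cast; rw [add_smul, one_smul, add_assoc]
    rw [e]
    have h1 := h (z + (k : ℝ) • u)
    have : g (z + (k : ℝ) • u + u) - g z
        = (g (z + (k : ℝ) • u + u) - g (z + (k : ℝ) • u)) + (g (z + (k : ℝ) • u) - g z) := by ring
    rw [this]
    refine le_trans (abs_add_le _ _) ?_
    push_cast
    linarith

theorem level_tele {V : Type*} [AddCommGroup V] [Module ℝ V] (L : List (ℕ × V)) (f : V → ℝ) (u : V)
    (κ : ℝ) (h : ∀ y, |avgs L (dif f u) (y + u) - avgs L (dif f u) y| ≤ κ) (z : V) (s : ℕ) :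
    |avgs L (dif f ((s : ℝ) • u)) z - s * avgs L (dif f u) z| ≤ s * (s * κ) := by
  have hκ : 0 ≤ κ := le_trans (abs_nonneg _) (h 0)
  have e : (dif f ((s : ℝ) • u)) = fun y => ∑ k ∈ Finset.range s, dif f u (y + (k : ℝ) • u) := by
    funext y
    have : ∀ k : ℕ, dif f u (y + (k : ℝ) • u) = f (y + ((k + 1 : ℕ) : ℝ) • u) - f (y + (k : ℝ) • u) := by
      intro k
      unfold dif
      push_cast
      rw [add_smul, one_smul, add_assoc]
    unfold dif at this ⊢
    rw [Finset.sum_congr rfl (fun k _ => this k)]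
    rw [Finset.sum_range_sub (fun k => f (y + (k : ℝ) • u))]
    simp
  rw [e, avgs_sum]
  have e2 : ∀ k ∈ Finset.range s, avgs L (fun y => dif f u (y + (k : ℝ) • u)) z
      = avgs L (dif f u) (z + (k : ℝ) • u) := by
    intro k _
    exact avgs_trans L (dif f u) _ z
  rw [Finset.sum_congr rfl e2]
  have e3 : (s : ℝ) * avgs L (dif f u) z = ∑ k ∈ Finset.range s, avgs L (dif f u) z := by
    rw [Finset.sum_const, Finset.card_range, nsmul_eq_mul]
  rw [e3, ← Finset.sum_sub_distrib]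
  refine le_trans (Finset.abs_sum_le_sum_abs _ _) ?_
  have hb : ∀ k ∈ Finset.range s,
      |avgs L (dif f u) (z + (k : ℝ) • u) - avgs L (dif f u) z| ≤ s * κ := by
    intro k hk
    refine le_trans (level_steps (avgs L (dif f u)) u κ h z k) ?_
    have : (k : ℝ) ≤ s := by exact_mod_cast (Finset.mem_range.mp hk).le
    exact mul_le_mul_of_nonneg_right this hκ
  refine le_trans (Finset.sum_le_sum hb) ?_
  rw [Finset.sum_const, Finset.card_range, nsmul_eq_mul]

/-- shift by an integer sign combination of the directions of level `j` -/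
theorem level_shift {m : ℕ} (L : List (ℕ × Vec m)) (N : ℕ) (v : Fin m → Vec m)
    (hv : ∀ l, (N, v l) ∈ L) (φ : Vec m → ℝ) (b : ℝ) (hφ : ∀ z, |φ z| ≤ b) (a : Fin m → ℤ)
    (ha : ∀ l, |(a l : ℝ)| = 1) (z : Vec m) :
    |avgs L φ (z + ∑ l, (a l : ℝ) • v l) - avgs L φ z| ≤ m * (2 * b / (2 * N + 1)) := by
  have h := shift_sum (avgs L φ) (2 * b / (2 * N + 1)) v
    (fun l y => avgs_mem_shift L N (v l) (hv l) φ b hφ y) a z
  refine le_trans h (le_of_eq ?_)
  congr 1
  rw [Finset.sum_congr rfl (fun l _ => ha l)]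
  simp

theorem level_num (m j : ℕ) (hm : 1 ≤ m) (hj : j < m) (U U1 U2 : ℝ)
    (hU : U ≤ m * 2 ^ (m - j)) (hU1 : U1 ≤ m * 2 ^ (m - (j + 1))) (hU2 : U2 ≤ m * 2 ^ (m - (j + 1)))
    (h0 : 0 ≤ U) (_h1 : 0 ≤ U1) (_h2 : 0 ≤ U2) (s : ℕ) (hs : s = 2 ^ (2 * m * (m - j))) :
    2 * (s * (m * (2 * U / (2 * (scl m j : ℝ) + 1))))
      + 2 * (m * (scl m (j + 1) * 2 ^ (m - (j + 1)))) / s
      + (m * (2 * U1 / (2 * (scl m j : ℝ) + 1)) + m * (2 * U1 / (2 * (scl m (j + 1) : ℝ) + 1)))
      + m * (scl m (j + 1) * (2 * U2 / (2 * (scl m j : ℝ) + 1)))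
      ≤ 5 * (m : ℝ) ^ 2 / 2 ^ j := by
  obtain ⟨d, rfl⟩ : ∃ d, m = j + 1 + d := ⟨m - (j + 1), by omega⟩
  have hd : j + 1 + d - (j + 1) = d := by omega
  have hd' : j + 1 + d - j = d + 1 := by omega
  rw [hd] at hU1 hU2
  rw [hd'] at hU hs
  rw [hd]
  set M : ℝ := ((j + 1 + d : ℕ) : ℝ) with hM
  have hM1 : 1 ≤ M := by rw [hM]; exact_mod_cast hm
  -- q, N', s, N
  set q : ℝ := 2 ^ (j + 1 + d) with hq
  have hq1 : 1 ≤ q := one_le_pow₀ (by norm_num)
  set N' : ℝ := (scl (j + 1 + d) (j + 1) : ℝ) with hN'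
  have eN' : N' = 2 ^ ((j + 1 + d) * (2 * d + 1)) := by
    rw [hN']; unfold scl; push_cast; congr 2; omega
  have hqN' : q ≤ N' := by
    rw [eN', hq]
    refine pow_le_pow_right₀ (by norm_num) ?_
    nlinarith
  have es : (s : ℝ) = N' * q := by
    rw [hs, eN', hq, ← pow_add]; push_cast; congr 1; ring
  have eN : (scl (j + 1 + d) j : ℝ) = (s : ℝ) * q := by
    rw [hs, hq]; unfold scl; push_cast; rw [← pow_add]; congr 1; rw [hd']; ring
  rw [eN]
  set S : ℝ := (s : ℝ) with hS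
  have hN'0 : 0 < N' := by linarith
  have hq0 : 0 < q := by linarith
  have hS0 : 0 < S := by rw [es]; positivity
  have hqS : q ≤ S := by rw [es]; nlinarith
  set P : ℝ := 2 ^ d with hP
  have hP0 : 0 < P := by positivity
  have hPj : P * 2 * 2 ^ j = q := by
    rw [hP, hq, ← pow_succ, ← pow_add]; congr 1; omega
  have hj0 : (0 : ℝ) < 2 ^ j := by positivity
  have eP : (2 : ℝ) ^ (d + 1) = 2 * P := by rw [hP, pow_succ]; ring
  rw [eP] at hU
  -- the target
  have target : 5 * M ^ 2 / 2 ^ j = 10 * M ^ 2 * P / q := by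
    rw [← hPj]; field_simp; ring
  rw [target]
  -- term 1
  have t1 : 2 * (S * (M * (2 * U / (2 * (S * q) + 1)))) ≤ 4 * M ^ 2 * P / q := by
    have a1 : 2 * U / (2 * (S * q) + 1) ≤ 2 * (M * (2 * P)) / (2 * (S * q)) := by
      apply div_le_div₀
      · positivity
      · linarith
      · positivity
      · linarith
    calc 2 * (S * (M * (2 * U / (2 * (S * q) + 1))))
        ≤ 2 * (S * (M * (2 * (M * (2 * P)) / (2 * (S * q))))) := by
          apply mul_le_mul_of_nonneg_left _ (by norm_num)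
          apply mul_le_mul_of_nonneg_left _ hS0.le
          apply mul_le_mul_of_nonneg_left a1 (by linarith)
      _ = 4 * M ^ 2 * P / q := by field_simp; ring
  have t2 : 2 * (M * (N' * P)) / S ≤ 2 * M ^ 2 * P / q := by
    rw [es]
    have : 2 * (M * (N' * P)) / (N' * q) = 2 * M * P / q := by field_simp
    rw [this]
    apply div_le_div_of_nonneg_right _ hq0.le
    have : M ≤ M ^ 2 := by nlinarith
    nlinarith
  have t3 : M * (2 * U1 / (2 * (S * q) + 1)) ≤ M ^ 2 * P / q := by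
    have a1 : 2 * U1 / (2 * (S * q) + 1) ≤ 2 * (M * P) / (2 * q) := by
      apply div_le_div₀
      · positivity
      · linarith
      · positivity
      · nlinarith
    calc M * (2 * U1 / (2 * (S * q) + 1)) ≤ M * (2 * (M * P) / (2 * q)) :=
          mul_le_mul_of_nonneg_left a1 (by linarith)
      _ = M ^ 2 * P / q := by field_simp
  have t4 : M * (2 * U1 / (2 * N' + 1)) ≤ M ^ 2 * P / q := by
    have a1 : 2 * U1 / (2 * N' + 1) ≤ 2 * (M * P) / (2 * q) := by
      apply div_le_div₀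
      · positivity
      · linarith
      · positivity
      · linarith
    calc M * (2 * U1 / (2 * N' + 1)) ≤ M * (2 * (M * P) / (2 * q)) :=
          mul_le_mul_of_nonneg_left a1 (by linarith)
      _ = M ^ 2 * P / q := by field_simp
  have t5 : M * (N' * (2 * U2 / (2 * (S * q) + 1))) ≤ M ^ 2 * P / q := by
    have a1 : 2 * U2 / (2 * (S * q) + 1) ≤ 2 * (M * P) / (2 * (S * q)) := by
      apply div_le_div₀
      · positivity
      · linarith
      · positivity
      · linarith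
    calc M * (N' * (2 * U2 / (2 * (S * q) + 1))) ≤ M * (N' * (2 * (M * P) / (2 * (S * q)))) := by
          apply mul_le_mul_of_nonneg_left _ (by linarith)
          apply mul_le_mul_of_nonneg_left a1 hN'0.le
      _ = M ^ 2 * P / q * (N' / S) := by field_simp
      _ ≤ M ^ 2 * P / q * 1 := by
          apply mul_le_mul_of_nonneg_left _ (by positivity)
          rw [div_le_one hS0, es]
          nlinarith
      _ = M ^ 2 * P / q := by ring
  have final : 4 * M ^ 2 * P / q + 2 * M ^ 2 * P / q + (M ^ 2 * P / q + M ^ 2 * P / q) + M ^ 2 * P / q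
      ≤ 10 * M ^ 2 * P / q := by
    have : 0 ≤ M ^ 2 * P / q := by positivity
    have e : 4 * M ^ 2 * P / q + 2 * M ^ 2 * P / q + (M ^ 2 * P / q + M ^ 2 * P / q) + M ^ 2 * P / q
      = 9 * (M ^ 2 * P / q) := by ring
    have e' : 10 * M ^ 2 * P / q = 10 * (M ^ 2 * P / q) := by ring
    rw [e, e']; linarith
  linarith

theorem level {m : ℕ} (hm : 1 ≤ m) (f : Vec m → ℝ) (hf : Lip f) (ε w : Cub m) (j : Fin m)
    (z : Vec m) :
    |avgs (lst w j) (dif f (uu ε j w)) z - avgs (lst w (j + 1)) (dif f (uu ε (j + 1) w)) z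
      - avgs (lst (flp j w) (j + 1)) (dif f (uu ε (j + 1) (flp j w))) z|
      ≤ 5 * (m : ℝ) ^ 2 / 2 ^ (j : ℕ) := by
  set u := uu ε j w with hu
  set u1 := uu ε (j + 1) w with hu1
  set u2 := uu ε (j + 1) (flp j w) with hu2
  have husplit : u = u1 + u2 := uu_split ε w j
  set N : ℕ := scl m j with hN
  set N' : ℕ := scl m (j + 1) with hN'
  set s : ℕ := 2 ^ (2 * m * (m - j)) with hs
  have hs0 : (0 : ℝ) < s := by rw [hs]; positivity
  set T := avgs (lst w j) with hT
  set T' := avgs (lst w (j + 1)) with hT'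
  set Lm : List (ℕ × Vec m) := (List.finRange m).map (fun l => (N', cyl (j + 1) w l)) with hLm
  have hT'e : ∀ φ, T' φ = avgs Lm (T φ) := by
    intro φ
    rw [hT']
    show avgs (Lm ++ lst w j) φ = _
    rw [avgs_append]
  set U := nrm u with hU
  set κ : ℝ := m * (2 * U / (2 * N + 1)) with hκ
  have hshift : ∀ (L : List (ℕ × Vec m)), (∀ l, (N, cyl j w l) ∈ L) →
      ∀ (φ : Vec m → ℝ) (b : ℝ), (∀ z, |φ z| ≤ b) → ∀ y,
      |avgs L φ (y + u) - avgs L φ y| ≤ m * (2 * b / (2 * N + 1)) := by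
    intro L hL φ b hφ y
    rw [hu, uu_eq_sum]
    exact level_shift L N (cyl j w) hL φ b hφ (fun l => sgi l ε) (fun l => sgi_abs l ε) y
  -- step 1
  have s1 : |T (dif f ((s : ℝ) • u)) z - s * T (dif f u) z| ≤ s * (s * κ) :=
    level_tele (lst w j) f u κ (fun y => hshift _ (level_mem w j) _ _ (level_dif_le f hf u) y) z s
  -- step 3
  have s3 : |T' (dif f ((s : ℝ) • u)) z - s * T' (dif f u) z| ≤ s * (s * κ) :=
    level_tele (lst w (j + 1)) f u κ
      (fun y => hshift _ (level_mem' w j) _ _ (level_dif_le f hf u) y) z s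
  -- step 2
  have hdispl : ∀ y, |avgs Lm (T f) y - T f y| ≤ m * (N' * 2 ^ (m - (j + 1))) := by
    intro y
    refine le_trans (avgs_disp Lm (T f) (level_lip _ f hf) y) (le_of_eq ?_)
    rw [hLm, List.map_map]
    have : ((fun p : ℕ × Vec m => (p.1 : ℝ) * nrm p.2) ∘ fun l => (N', cyl ((j : ℕ) + 1) w l))
        = fun _ : Fin m => (N' : ℝ) * 2 ^ (m - ((j : ℕ) + 1)) := by
      funext l
      simp only [Function.comp]
      rw [nrm_cyl (by have := j.2; omega)]
    rw [this, List.map_const', List.sum_replicate]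
    simp
  have hTdif : ∀ (v : Vec m) (y : Vec m), T (dif f v) y = T f (y + v) - T f y := by
    intro v y
    rw [hT]
    unfold dif
    rw [avgs_sub, avgs_trans]
  have s2 : |T' (dif f ((s : ℝ) • u)) z - T (dif f ((s : ℝ) • u)) z|
      ≤ 2 * (m * (N' * 2 ^ (m - (j + 1)))) := by
    rw [hT'e]
    have e1 : T (dif f ((s : ℝ) • u)) = fun y => T f (y + (s : ℝ) • u) - T f y := by
      funext y; exact hTdif _ y
    rw [e1, avgs_sub, avgs_trans]
    have h1 := hdispl (z + (s : ℝ) • u)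
    have h2 := hdispl z
    have e2 : avgs Lm (T f) (z + (s : ℝ) • u) - avgs Lm (T f) z - (T f (z + (s : ℝ) • u) - T f z)
        = (avgs Lm (T f) (z + (s : ℝ) • u) - T f (z + (s : ℝ) • u)) - (avgs Lm (T f) z - T f z) := by
      ring
    rw [e2]
    refine le_trans (abs_sub _ _) ?_
    linarith
  have s123 : |T (dif f u) z - T' (dif f u) z|
      ≤ 2 * (s * κ) + 2 * (m * (N' * 2 ^ (m - (j + 1)))) / s := by
    have h1 := abs_le.mp s1
    have h2 := abs_le.mp s2
    have h3 := abs_le.mp s3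
    have e : s * (T (dif f u) z - T' (dif f u) z) ≤ 2 * (s * (s * κ)) + 2 * (m * (N' * 2 ^ (m - (j + 1)))) := by
      nlinarith [h1.1, h1.2, h2.1, h2.2, h3.1, h3.2]
    have e' : -(2 * (s * (s * κ)) + 2 * (m * (N' * 2 ^ (m - (j + 1))))) ≤ s * (T (dif f u) z - T' (dif f u) z) := by
      nlinarith [h1.1, h1.2, h2.1, h2.2, h3.1, h3.2]
    have e3 : 2 * (s * κ) + 2 * (m * (N' * 2 ^ (m - ((j : ℕ) + 1)))) / s
        = (2 * (s * (s * κ)) + 2 * (m * (N' * 2 ^ (m - ((j : ℕ) + 1))))) / s := by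
      field_simp
    rw [e3, le_div_iff₀ hs0, ← abs_of_pos hs0, ← abs_mul, abs_of_pos hs0, mul_comm]
    exact abs_le.mpr ⟨e', e⟩
  -- step 4
  have e4 : T' (dif f u) z = T' (dif f u1) (z + u2) + T' (dif f u2) z := by
    have : dif f u = fun y => dif f u1 (y + u2) + dif f u2 y := by
      funext y
      unfold dif
      rw [husplit]
      have : y + (u1 + u2) = y + u2 + u1 := by abel
      rw [this]; ring
    rw [hT', this, avgs_add, avgs_trans]
  have hb1 := level_dif_le f hf u1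
  have hb2 := level_dif_le f hf u2
  have s4 : |T' (dif f u1) (z + u2) - T' (dif f u1) z|
      ≤ m * (2 * nrm u1 / (2 * N + 1)) + m * (2 * nrm u1 / (2 * N' + 1)) := by
    have e : z + u2 = (z + ∑ l, ((-(sgi l ε) : ℤ) : ℝ) • cyl (j + 1) w l) + u := by
      have h1 : ∑ l, ((-(sgi l ε) : ℤ) : ℝ) • cyl (j + 1) w l = - u1 := by
        rw [hu1, uu_eq_sum, ← Finset.sum_neg_distrib]
        refine Finset.sum_congr rfl (fun l _ => ?_)
        push_cast
        rw [neg_smul]
      rw [h1, husplit]; abel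
    rw [e]
    have h1 := hshift (lst w (j + 1)) (level_mem' w j) (dif f u1) _ hb1
      (z + ∑ l, ((-(sgi l ε) : ℤ) : ℝ) • cyl (j + 1) w l)
    have h2 := level_shift (lst w (j + 1)) N' (cyl (j + 1) w) (level_mem w (j + 1)) (dif f u1) _ hb1
      (fun l => -(sgi l ε)) (fun l => by push_cast; rw [abs_neg]; exact sgi_abs l ε) z
    have h3 := abs_add_le (avgs (lst w (j + 1)) (dif f u1) ((z + ∑ l, ((-(sgi l ε) : ℤ) : ℝ) • cyl (j + 1) w l) + u)
      - avgs (lst w (j + 1)) (dif f u1) (z + ∑ l, ((-(sgi l ε) : ℤ) : ℝ) • cyl (j + 1) w l))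
      (avgs (lst w (j + 1)) (dif f u1) (z + ∑ l, ((-(sgi l ε) : ℤ) : ℝ) • cyl (j + 1) w l)
      - avgs (lst w (j + 1)) (dif f u1) z)
    have e5 : (avgs (lst w (j + 1)) (dif f u1) ((z + ∑ l, ((-(sgi l ε) : ℤ) : ℝ) • cyl (j + 1) w l) + u)
      - avgs (lst w (j + 1)) (dif f u1) (z + ∑ l, ((-(sgi l ε) : ℤ) : ℝ) • cyl (j + 1) w l)) +
      (avgs (lst w (j + 1)) (dif f u1) (z + ∑ l, ((-(sgi l ε) : ℤ) : ℝ) • cyl (j + 1) w l)
      - avgs (lst w (j + 1)) (dif f u1) z)
      = avgs (lst w (j + 1)) (dif f u1) ((z + ∑ l, ((-(sgi l ε) : ℤ) : ℝ) • cyl (j + 1) w l) + u)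
        - avgs (lst w (j + 1)) (dif f u1) z := by ring
    rw [e5] at h3
    rw [hT']
    linarith
  -- step 5
  have s5 : |T' (dif f u2) z - avgs (lst (flp j w) (j + 1)) (dif f u2) z|
      ≤ m * (N' * (2 * nrm u2 / (2 * N + 1))) := by
    rw [hT'e]
    have e1 : avgs (lst (flp j w) (j + 1)) (dif f u2)
        = avgs ((List.finRange m).map (fun l => (N', cyl j w l - cyl (j + 1) w l))) (T (dif f u2)) := by
      have e2 : lst (flp j w) (j + 1)
          = ((List.finRange m).map (fun l => (N', cyl (j + 1) (flp j w) l))) ++ lst (flp j w) j := rfl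
      rw [e2, avgs_append, lst_flp]
      have e3 : ∀ l, cyl ((j : ℕ) + 1) (flp j w) l = cyl j w l - cyl ((j : ℕ) + 1) w l := by
        intro l
        rw [cyl_split w j l]; abel
      simp only [e3]
      rfl
    rw [e1, abs_sub_comm]
    have h := avgs_swap N' (cyl j w) (cyl (j + 1) w) (2 * nrm u2 / (2 * N + 1)) (T (dif f u2))
      (fun l y => avgs_mem_shift (lst w j) N (cyl j w l) (level_mem w j l) (dif f u2) _ hb2 y)
      (List.finRange m) z
    rw [List.length_finRange] at h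
    exact h
  -- combine
  have hnum := level_num m j hm j.2 U (nrm u1) (nrm u2) (nrm_uu_le (le_of_lt j.2) ε w)
    (nrm_uu_le (by have := j.2; omega) ε w) (nrm_uu_le (by have := j.2; omega) ε (flp j w))
    (nrm_nonneg _) (nrm_nonneg _) (nrm_nonneg _) s hs
  refine le_trans ?_ hnum
  have a1 := abs_le.mp s123
  have a4 := abs_le.mp s4
  have a5 := abs_le.mp s5
  rw [abs_le]
  constructor
  · linarith [a1.1, a1.2, a4.1, a4.2, a5.1, a5.2, e4]
  · linarith [a1.1, a1.2, a4.1, a4.2, a5.1, a5.2, e4]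

end Pool.PolyDim
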