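import Pool.Agent.Work.MP_b0293a_gt.Neg.Level

/-!
# Linearisation (result of Step 1)
-/

set_option autoImplicit false

namespace Pool.PolyDim

open Finset

theorem lin_int {V : Type*} [AddCommGroup V] [Module ℝ V] (L : List (ℕ × V)) (f : V → ℝ) (v : V)
    (κ : ℝ) (h : ∀ y, |avgs L (dif f v) (y + v) - avgs L (dif f v) y| ≤ κ) (z : V) (c : ℤ) :
    |avgs L (dif f ((c : ℝ) • v)) z - c * avgs L (dif f v) z| ≤ |(c : ℝ)| * (|(c : ℝ)| * κ) := by
  have hκ : 0 ≤ κ := le_trans (abs_nonneg _) (h 0)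
  obtain ⟨n, rfl | rfl⟩ := Int.eq_nat_or_neg c
  · have := level_tele L f v κ h z n
    simpa using this
  · have e : (dif f (((-(n : ℤ) : ℤ) : ℝ) • v))
        = fun y => (-1) * ∑ k ∈ Finset.range n, dif f v (y + (-((k : ℝ) + 1)) • v) := by
      funext y
      have : ∀ k : ℕ, dif f v (y + (-((k : ℝ) + 1)) • v)
          = -(f (y + (-(((k + 1 : ℕ)) : ℝ)) • v) - f (y + (-((k : ℕ) : ℝ)) • v)) := by
        intro k
        unfold dif
        have e1 : y + (-((k : ℝ) + 1)) • v + v = y + (-((k : ℕ) : ℝ)) • v := by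
          rw [neg_add, add_smul]; simp only [neg_smul, one_smul]; abel
        rw [e1]
        push_cast
        ring
      rw [Finset.sum_congr rfl (fun k _ => this k), Finset.sum_neg_distrib,
        Finset.sum_range_sub (fun k : ℕ => f (y + (-((k : ℕ) : ℝ)) • v))]
      unfold dif
      push_cast
      simp
    rw [e, avgs_mul, avgs_sum]
    have e2 : ∀ k ∈ Finset.range n, avgs L (fun y => dif f v (y + (-((k : ℝ) + 1)) • v)) z
        = avgs L (dif f v) (z + (-((k : ℝ) + 1)) • v) := by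
      intro k _
      exact avgs_trans L (dif f v) _ z
    rw [Finset.sum_congr rfl e2]
    have e3 : (((-(n : ℤ) : ℤ)) : ℝ) * avgs L (dif f v) z
        = -1 * ∑ k ∈ Finset.range n, avgs L (dif f v) z := by
      rw [Finset.sum_const, Finset.card_range, nsmul_eq_mul]; push_cast; ring
    rw [e3, ← mul_sub, ← Finset.sum_sub_distrib, abs_mul]
    have e4 : |(-1 : ℝ)| = 1 := by norm_num
    rw [e4, one_mul]
    refine le_trans (Finset.abs_sum_le_sum_abs _ _) ?_
    have hb : ∀ k ∈ Finset.range n,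
        |avgs L (dif f v) (z + (-((k : ℝ) + 1)) • v) - avgs L (dif f v) z| ≤ n * κ := by
      intro k hk
      have h1 := level_steps (avgs L (dif f v)) v κ h (z + (-((k : ℝ) + 1)) • v) (k + 1)
      have e5 : z + (-((k : ℝ) + 1)) • v + ((k + 1 : ℕ) : ℝ) • v = z := by
        push_cast
        rw [add_assoc, ← add_smul]
        simp
      rw [e5, abs_sub_comm] at h1
      refine le_trans h1 ?_
      have : ((k + 1 : ℕ) : ℝ) ≤ n := by exact_mod_cast (Finset.mem_range.mp hk)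
      exact mul_le_mul_of_nonneg_right this hκ
    refine le_trans (Finset.sum_le_sum hb) ?_
    rw [Finset.sum_const, Finset.card_range, nsmul_eq_mul]
    push_cast
    rw [abs_neg, abs_of_nonneg (by positivity : (0 : ℝ) ≤ (n : ℝ))]

/-- sum over all levels, at one base point -/
theorem lin_levels {m : ℕ} (hm : 1 ≤ m) (f : Vec m → ℝ) (hf : Lip f) (ε : Cub m) (z : Vec m) :
    |avgs (lst (fun _ => false) 0) (dif f (ee ε)) z
      - ∑ w, avgs (lst w m) (dif f (uu ε m w)) z| ≤ 5 * (m : ℝ) ^ 3 := by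
  set F : ℕ → Cub m → ℝ := fun j w => avgs (lst w j) (dif f (uu ε j w)) z with hF
  set G : ℕ → ℝ := fun j => ∑ w : Cub m, 2 ^ j * F j w with hG
  have hcard : (Finset.univ : Finset (Cub m)).card = 2 ^ m := by
    simp [Cub]
  have hstep : ∀ j : ℕ, j < m → |G j - G (j + 1)| ≤ 2 ^ m * (5 * (m : ℝ) ^ 2) := by
    intro j hj
    have e1 : G (j + 1) = ∑ w : Cub m, 2 ^ j * (F (j + 1) w + F (j + 1) (flp ⟨j, hj⟩ w)) := by
      simp only [hG]
      have h1 : ∑ w : Cub m, 2 ^ j * (F (j + 1) w + F (j + 1) (flp ⟨j, hj⟩ w))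
          = ∑ w : Cub m, 2 ^ j * F (j + 1) w
            + ∑ w : Cub m, (fun w => 2 ^ j * F (j + 1) w) (flp ⟨j, hj⟩ w) := by
        rw [← Finset.sum_add_distrib]
        exact Finset.sum_congr rfl (fun w _ => by ring)
      rw [h1, sum_flp ⟨j, hj⟩ (fun w => 2 ^ j * F (j + 1) w), ← Finset.sum_add_distrib]
      exact Finset.sum_congr rfl (fun w _ => by ring)
    rw [e1]
    simp only [hG]
    rw [← Finset.sum_sub_distrib]
    refine le_trans (Finset.abs_sum_le_sum_abs _ _) ?_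
    have hb : ∀ w ∈ (Finset.univ : Finset (Cub m)),
        |2 ^ j * F j w - 2 ^ j * (F (j + 1) w + F (j + 1) (flp ⟨j, hj⟩ w))| ≤ 5 * (m : ℝ) ^ 2 := by
      intro w _
      have h := level hm f hf ε w ⟨j, hj⟩ z
      have e2 : 2 ^ j * F j w - 2 ^ j * (F (j + 1) w + F (j + 1) (flp ⟨j, hj⟩ w))
          = 2 ^ j * (F j w - F (j + 1) w - F (j + 1) (flp ⟨j, hj⟩ w)) := by ring
      rw [e2, abs_mul, abs_of_pos (by positivity : (0 : ℝ) < 2 ^ j)]
      have h' : |F j w - F (j + 1) w - F (j + 1) (flp ⟨j, hj⟩ w)| ≤ 5 * (m : ℝ) ^ 2 / 2 ^ j := h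
      calc (2 : ℝ) ^ j * |F j w - F (j + 1) w - F (j + 1) (flp ⟨j, hj⟩ w)|
          ≤ 2 ^ j * (5 * (m : ℝ) ^ 2 / 2 ^ j) := mul_le_mul_of_nonneg_left h' (by positivity)
        _ = 5 * (m : ℝ) ^ 2 := by field_simp
    refine le_trans (Finset.sum_le_sum hb) ?_
    rw [Finset.sum_const, hcard, nsmul_eq_mul]
    push_cast
    exact le_refl _
  have hall : ∀ j : ℕ, j ≤ m → |G 0 - G j| ≤ j * (2 ^ m * (5 * (m : ℝ) ^ 2)) := by
    intro j
    induction j with
    | zero => intro _; simp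
    | succ j ih =>
      intro hj
      have h1 := ih (by omega)
      have h2 := hstep j (by omega)
      have e : G 0 - G (j + 1) = (G 0 - G j) + (G j - G (j + 1)) := by ring
      rw [e]
      refine le_trans (abs_add_le _ _) ?_
      push_cast
      linarith
  have hfin := hall m le_rfl
  have eG0 : G 0 = 2 ^ m * avgs (lst (fun _ => false) 0) (dif f (ee ε)) z := by
    simp only [hG, hF]
    have : ∀ w ∈ (Finset.univ : Finset (Cub m)), (2 : ℝ) ^ 0 * avgs (lst w 0) (dif f (uu ε 0 w)) z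
        = avgs (lst (fun _ => false) 0) (dif f (ee ε)) z := by
      intro w _
      rw [pow_zero, one_mul, uu_zero]
      have : lst w 0 = lst (fun _ => false) 0 := by
        unfold lst
        congr 1
        funext l
        rw [cyl_zero w (fun _ => false) l]
      rw [this]
    rw [Finset.sum_congr rfl this, Finset.sum_const, hcard, nsmul_eq_mul]
    push_cast
    rfl
  have eGm : G m = 2 ^ m * ∑ w, avgs (lst w m) (dif f (uu ε m w)) z := by
    simp only [hG, hF]
    rw [Finset.mul_sum]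
  rw [eG0, eGm, ← mul_sub, abs_mul, abs_of_pos (by positivity : (0 : ℝ) < 2 ^ m)] at hfin
  have e : (m : ℝ) * (2 ^ m * (5 * (m : ℝ) ^ 2)) = 2 ^ m * (5 * (m : ℝ) ^ 3) := by ring
  rw [e] at hfin
  exact le_of_mul_le_mul_left hfin (by positivity)

theorem lin_ee_int {m : ℕ} (ε w : Cub m) : ∃ c : ℤ, ee ε w = c ∧ |(c : ℝ)| ≤ m := by
  refine ⟨∑ l, sgi l ε * sgi l w, ?_, ?_⟩
  · unfold ee
    push_cast
    exact Finset.sum_congr rfl (fun l _ => by rw [sgi_cast, sgi_cast])
  · have h : ((∑ l, sgi l ε * sgi l w : ℤ) : ℝ) = ee ε w := by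
      unfold ee
      push_cast
      exact Finset.sum_congr rfl (fun l _ => by rw [sgi_cast, sgi_cast])
    rw [h]
    exact ee_abs_le ε w

/-- the atoms -/
theorem lin_atoms {m : ℕ} (hm : 1 ≤ m) (f : Vec m → ℝ) (hf : Lip f) (ε w : Cub m) (z : Vec m) :
    |avgs (lst w m) (dif f (uu ε m w)) z - ee ε w * avgs (lst w m) (dif f (dlt w)) z|
      ≤ (m : ℝ) ^ 2 / 2 ^ m := by
  obtain ⟨c, hc, hcm⟩ := lin_ee_int ε w
  rw [uu_top, hc]
  have hb : ∀ y, |dif f (dlt w) y| ≤ 1 := by
    intro y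
    have := level_dif_le f hf (dlt w) y
    rwa [nrm_dlt] at this
  set κ : ℝ := 2 * 1 / (2 * (scl m m : ℝ) + 1) with hκ
  have hinv : ∀ y, |avgs (lst w m) (dif f (dlt w)) (y + dlt w) - avgs (lst w m) (dif f (dlt w)) y| ≤ κ := by
    intro y
    have l0 : Fin m := ⟨0, by omega⟩
    have hv := fun y => avgs_mem_shift (lst w m) (scl m m) (cyl m w l0) (level_mem w m l0)
      (dif f (dlt w)) 1 hb y
    rw [cyl_top] at hv
    unfold rad at hv
    by_cases hw : w l0 = true
    · rw [if_pos hw] at hv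
      have h1 := hv (y + dlt w)
      have e : y + dlt w + (-1 : ℝ) • dlt w = y := by
        rw [neg_smul, one_smul]; abel
      rw [e, abs_sub_comm] at h1
      exact h1
    · rw [if_neg hw, one_smul] at hv
      exact hv y
  have h := lin_int (lst w m) f (dlt w) κ hinv z c
  refine le_trans h ?_
  have hκ0 : 0 ≤ κ := by rw [hκ]; positivity
  have e1 : (scl m m : ℝ) = 2 ^ m := by
    unfold scl
    push_cast
    congr 1
    simp
  have hκ1 : κ ≤ 1 / 2 ^ m := by
    rw [hκ, e1]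
    rw [div_le_div_iff₀ (by positivity) (by positivity)]
    have : (0 : ℝ) < 2 ^ m := by positivity
    nlinarith
  have hc0 : 0 ≤ |(c : ℝ)| := abs_nonneg _
  calc |(c : ℝ)| * (|(c : ℝ)| * κ) ≤ m * (m * (1 / 2 ^ m)) := by
        apply mul_le_mul hcm _ (by positivity) (by positivity)
        apply mul_le_mul hcm hκ1 hκ0 (by positivity)
    _ = (m : ℝ) ^ 2 / 2 ^ m := by ring

theorem lin {m : ℕ} (hm : 1 ≤ m) (f : Vec m → ℝ) (hf : Lip f) (ε : Cub m) (A : Vec m) :
    (f (A + (kk m : ℝ) • ee ε) - f A) / kk m - 8 * (m : ℝ) ^ 3 ≤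
      ∑ w, ee ε w * ((∑ k ∈ Finset.range (kk m),
        avgs (lst w m) (dif f (dlt w)) (A + (k : ℝ) • ee ε)) / kk m) := by
  have hcard : (Finset.univ : Finset (Cub m)).card = 2 ^ m := by
    simp [Cub]
  have hM : (1 : ℝ) ≤ m := by exact_mod_cast hm
  set K : ℕ := kk m with hK
  have hK0 : (0 : ℝ) < K := by
    have : 0 < K := by rw [hK]; unfold kk; positivity
    exact_mod_cast this
  set L0 := lst (fun _ : Fin m => false) 0 with hL0
  -- pointwise
  have hpt : ∀ z : Vec m, avgs L0 (dif f (ee ε)) z - (5 * (m : ℝ) ^ 3 + (m : ℝ) ^ 2) ≤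
      ∑ w, ee ε w * avgs (lst w m) (dif f (dlt w)) z := by
    intro z
    have h1 := (abs_le.mp (lin_levels hm f hf ε z)).2
    have h2 : ∑ w, avgs (lst w m) (dif f (uu ε m w)) z
        - ∑ w, ee ε w * avgs (lst w m) (dif f (dlt w)) z ≤ (m : ℝ) ^ 2 := by
      rw [← Finset.sum_sub_distrib]
      have hb : ∀ w ∈ (Finset.univ : Finset (Cub m)),
          avgs (lst w m) (dif f (uu ε m w)) z - ee ε w * avgs (lst w m) (dif f (dlt w)) z
            ≤ (m : ℝ) ^ 2 / 2 ^ m := by
        intro w _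
        exact le_trans (le_abs_self _) (lin_atoms hm f hf ε w z)
      refine le_trans (Finset.sum_le_sum hb) (le_of_eq ?_)
      rw [Finset.sum_const, hcard, nsmul_eq_mul]
      push_cast
      field_simp
    linarith
  -- telescoping at the top
  have htop : f (A + (K : ℝ) • ee ε) - f A - 2 * (m : ℝ) * K ≤
      ∑ k ∈ Finset.range K, avgs L0 (dif f (ee ε)) (A + (k : ℝ) • ee ε) := by
    have e1 : ∀ k ∈ Finset.range K, avgs L0 (dif f (ee ε)) (A + (k : ℝ) • ee ε)
        = avgs L0 f (A + ((k + 1 : ℕ) : ℝ) • ee ε) - avgs L0 f (A + (k : ℝ) • ee ε) := by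
      intro k _
      unfold dif
      rw [avgs_sub, avgs_trans]
      push_cast
      rw [add_smul, one_smul, add_assoc]
    rw [Finset.sum_congr rfl e1, Finset.sum_range_sub (fun k : ℕ => avgs L0 f (A + (k : ℝ) • ee ε))]
    have hd : ∀ y, |avgs L0 f y - f y| ≤ m * K := by
      intro y
      refine le_trans (avgs_disp L0 f hf y) (le_of_eq ?_)
      rw [hL0]
      unfold lst
      rw [List.map_map]
      have : ((fun p : ℕ × Vec m => (p.1 : ℝ) * nrm p.2) ∘ fun l => (scl m 0, cyl 0 (fun _ : Fin m => false) l))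
          = fun _ : Fin m => (K : ℝ) := by
        funext l
        simp only [Function.comp]
        rw [nrm_cyl (Nat.zero_le m)]
        rw [hK]
        unfold scl kk
        push_cast
        rw [← pow_add]
        congr 1
      rw [this, List.map_const', List.sum_replicate]
      simp
    have h1 := abs_le.mp (hd (A + (K : ℝ) • ee ε))
    have h2 := abs_le.mp (hd A)
    have e2 : A + ((0 : ℕ) : ℝ) • ee ε = A := by simp
    rw [e2]
    linarith [h1.1, h2.2]
  -- combine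
  have hsum : ∑ w, ee ε w * ((∑ k ∈ Finset.range K,
        avgs (lst w m) (dif f (dlt w)) (A + (k : ℝ) • ee ε)) / K)
      = (∑ k ∈ Finset.range K, ∑ w, ee ε w * avgs (lst w m) (dif f (dlt w)) (A + (k : ℝ) • ee ε)) / K := by
    rw [Finset.sum_comm, Finset.sum_div]
    refine Finset.sum_congr rfl (fun w _ => ?_)
    rw [← Finset.mul_sum]
    ring
  rw [hsum, le_div_iff₀ hK0]
  have hlow : ∑ k ∈ Finset.range K, (avgs L0 (dif f (ee ε)) (A + (k : ℝ) • ee ε) - (5 * (m : ℝ) ^ 3 + (m : ℝ) ^ 2))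
      ≤ ∑ k ∈ Finset.range K, ∑ w, ee ε w * avgs (lst w m) (dif f (dlt w)) (A + (k : ℝ) • ee ε) :=
    Finset.sum_le_sum (fun k _ => hpt _)
  refine le_trans ?_ hlow
  rw [Finset.sum_sub_distrib, Finset.sum_const, Finset.card_range, nsmul_eq_mul]
  have e3 : ((f (A + (K : ℝ) • ee ε) - f A) / K - 8 * (m : ℝ) ^ 3) * K
      = f (A + (K : ℝ) • ee ε) - f A - 8 * (m : ℝ) ^ 3 * K := by
    field_simp
  rw [e3]
  have h5 : 2 * (m : ℝ) * K + K * (5 * (m : ℝ) ^ 3 + (m : ℝ) ^ 2) ≤ 8 * (m : ℝ) ^ 3 * K := by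
    have : 2 * (m : ℝ) + (5 * (m : ℝ) ^ 3 + (m : ℝ) ^ 2) ≤ 8 * (m : ℝ) ^ 3 := by
      have h1 : (m : ℝ) ≤ (m : ℝ) ^ 3 := by
        calc (m : ℝ) = m ^ 1 := (pow_one _).symm
          _ ≤ (m : ℝ) ^ 3 := pow_le_pow_right₀ hM (by norm_num)
      have h2 : (m : ℝ) ^ 2 ≤ (m : ℝ) ^ 3 := pow_le_pow_right₀ hM (by norm_num)
      linarith
    nlinarith
  linarith

end Pool.PolyDim
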