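import Pool.Agent.Work.MP_b0293a_gt.Neg.Defs

/-!
# Averaging operators

Everything is by induction on the list.  `avg1 N v` is a finite average over the segment `z + k v`,
`-N ≤ k ≤ N` (there are `2N+1` terms), so all statements reduce to one segment; the shift by `v`
of a segment changes only two terms.
-/

set_option autoImplicit false

namespace Pool.PolyDim

open Finset

variable {V : Type*} [AddCommGroup V] [Module ℝ V]

private theorem ops_card (N : ℕ) : ((Finset.Icc (-(N : ℤ)) N).card : ℝ) = 2 * N + 1 := by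
  rw [Int.card_Icc]
  have : ((N : ℤ) + 1 - -(N : ℤ)).toNat = 2 * N + 1 := by omega
  rw [this]
  push_cast
  ring

private theorem ops_pos (N : ℕ) : (0 : ℝ) < 2 * N + 1 := by positivity

/-- an average of quantities bounded by `c` is bounded by `c` -/
private theorem ops_avg_le (N : ℕ) (F : ℤ → ℝ) (c : ℝ) (h : ∀ k : ℤ, |k| ≤ (N : ℤ) → |F k| ≤ c) :
    |(∑ k ∈ Finset.Icc (-(N : ℤ)) N, F k) / (2 * N + 1)| ≤ c := by
  rw [abs_div, abs_of_pos (ops_pos N), div_le_iff₀ (ops_pos N)]
  calc |∑ k ∈ Finset.Icc (-(N : ℤ)) N, F k| ≤ ∑ k ∈ Finset.Icc (-(N : ℤ)) N, |F k| :=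
        Finset.abs_sum_le_sum_abs _ _
    _ ≤ ∑ _k ∈ Finset.Icc (-(N : ℤ)) N, c := by
        refine Finset.sum_le_sum fun k hk => h k ?_
        rw [Finset.mem_Icc] at hk
        exact abs_le.2 hk
    _ = c * (2 * N + 1) := by
        rw [Finset.sum_const, nsmul_eq_mul, ops_card]
        ring

private theorem ops_avg1_mono (N : ℕ) (v : V) (φ ψ : V → ℝ) (z : V)
    (h : ∀ k : ℤ, |k| ≤ (N : ℤ) → φ (z + (k : ℝ) • v) ≤ ψ (z + (k : ℝ) • v)) :
    avg1 N v φ z ≤ avg1 N v ψ z := by
  unfold avg1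
  refine div_le_div_of_nonneg_right (Finset.sum_le_sum fun k hk => h k ?_) (ops_pos N).le
  rw [Finset.mem_Icc] at hk
  exact abs_le.2 hk

private theorem ops_avg1_congr (N : ℕ) (v : V) (φ ψ : V → ℝ) (z : V)
    (h : ∀ k : ℤ, |k| ≤ (N : ℤ) → φ (z + (k : ℝ) • v) = ψ (z + (k : ℝ) • v)) :
    avg1 N v φ z = avg1 N v ψ z :=
  le_antisymm (ops_avg1_mono N v φ ψ z fun k hk => (h k hk).le)
    (ops_avg1_mono N v ψ φ z fun k hk => (h k hk).ge)

/-- comparing two averages -/
private theorem ops_avg1_diff (N : ℕ) (v w : V) (φ ψ : V → ℝ) (z y : V) (c : ℝ)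
    (h : ∀ k : ℤ, |k| ≤ (N : ℤ) → |φ (z + (k : ℝ) • v) - ψ (y + (k : ℝ) • w)| ≤ c) :
    |avg1 N v φ z - avg1 N w ψ y| ≤ c := by
  unfold avg1
  rw [← sub_div, ← Finset.sum_sub_distrib]
  exact ops_avg_le N (fun k => φ (z + (k : ℝ) • v) - ψ (y + (k : ℝ) • w)) c h

private theorem ops_avg1_const (N : ℕ) (v : V) (c : ℝ) (z : V) : avg1 N v (fun _ => c) z = c := by
  unfold avg1
  rw [Finset.sum_const, nsmul_eq_mul, ops_card, mul_comm, mul_div_assoc,
    div_self (ops_pos N).ne', mul_one]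

private theorem ops_avg1_neg (N : ℕ) (v : V) (φ : V → ℝ) (z : V) :
    avg1 N (-v) φ z = avg1 N v φ z := by
  unfold avg1
  congr 1
  refine Finset.sum_nbij' (fun k => -k) (fun k => -k) ?_ ?_ ?_ ?_ ?_
  · intro k hk
    rw [Finset.mem_Icc] at hk ⊢
    omega
  · intro k hk
    rw [Finset.mem_Icc] at hk ⊢
    omega
  · intro k _
    exact neg_neg k
  · intro k _
    exact neg_neg k
  · intro k _
    congr 1
    push_cast
    rw [smul_neg, neg_smul]

/-- a telescoping sum over a symmetric interval -/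
private theorem ops_tele (N : ℕ) (h : ℤ → ℝ) :
    ∑ k ∈ Finset.Icc (-(N : ℤ)) N, (h (k + 1) - h k) = h (N + 1) - h (-(N : ℤ)) := by
  have e : ∑ k ∈ Finset.Icc (-(N : ℤ)) N, (h (k + 1) - h k) =
      ∑ i ∈ Finset.range (2 * N + 1), (h ((i : ℤ) - N + 1) - h ((i : ℤ) - N)) := by
    refine (Finset.sum_nbij' (fun i : ℕ => (i : ℤ) - N) (fun k : ℤ => (k + N).toNat)
      ?_ ?_ ?_ ?_ ?_).symm
    · intro i hi
      rw [Finset.mem_range] at hi
      rw [Finset.mem_Icc]
      omega
    · intro k hk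
      rw [Finset.mem_Icc] at hk
      rw [Finset.mem_range]
      omega
    · intro i _
      show ((i : ℤ) - N + N).toNat = i
      omega
    · intro k hk
      rw [Finset.mem_Icc] at hk
      show (((k + N).toNat : ℕ) : ℤ) - N = k
      omega
    · intro i _
      rfl
  rw [e]
  have h2 := Finset.sum_range_sub (fun i : ℕ => h ((i : ℤ) - N)) (2 * N + 1)
  have h3 : ∀ i : ℕ, h ((i : ℤ) - N + 1) - h ((i : ℤ) - N) =
      h (((i + 1 : ℕ) : ℤ) - N) - h ((i : ℤ) - N) := by
    intro i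
    congr 2
    push_cast
    ring
  rw [Finset.sum_congr rfl fun i _ => h3 i, h2]
  congr 2
  · push_cast
    ring
  · push_cast
    ring

theorem avgs_bound (L : List (ℕ × V)) (φ : V → ℝ) (b : ℝ) (h : ∀ z, |φ z| ≤ b) (z : V) :
    |avgs L φ z| ≤ b := by
  induction L generalizing z with
  | nil => exact h z
  | cons p L ih => exact ops_avg_le p.1 (fun k => avgs L φ (z + (k : ℝ) • p.2)) b fun k _ => ih _

theorem avgs_add (L : List (ℕ × V)) (φ ψ : V → ℝ) (z : V) :
    avgs L (fun y => φ y + ψ y) z = avgs L φ z + avgs L ψ z := by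
  induction L generalizing z with
  | nil => rfl
  | cons p L ih =>
    show avg1 p.1 p.2 (avgs L (fun y => φ y + ψ y)) z =
      avg1 p.1 p.2 (avgs L φ) z + avg1 p.1 p.2 (avgs L ψ) z
    unfold avg1
    rw [← add_div, ← Finset.sum_add_distrib]
    congr 1
    exact Finset.sum_congr rfl fun k _ => ih _

theorem avgs_mul (L : List (ℕ × V)) (c : ℝ) (φ : V → ℝ) (z : V) :
    avgs L (fun y => c * φ y) z = c * avgs L φ z := by
  induction L generalizing z with
  | nil => rfl
  | cons p L ih =>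
    show avg1 p.1 p.2 (avgs L (fun y => c * φ y)) z = c * avg1 p.1 p.2 (avgs L φ) z
    unfold avg1
    rw [← mul_div_assoc, Finset.mul_sum]
    congr 1
    exact Finset.sum_congr rfl fun k _ => ih _

theorem avgs_sub (L : List (ℕ × V)) (φ ψ : V → ℝ) (z : V) :
    avgs L (fun y => φ y - ψ y) z = avgs L φ z - avgs L ψ z := by
  have e : (fun y => φ y - ψ y) = fun y => φ y + (fun x => (-1) * ψ x) y := by
    funext y
    ring
  rw [e, avgs_add, avgs_mul]
  ring

theorem avgs_sum {ι : Type*} (s : Finset ι) (L : List (ℕ × V)) (φ : ι → V → ℝ) (z : V) :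
    avgs L (fun y => ∑ i ∈ s, φ i y) z = ∑ i ∈ s, avgs L (φ i) z := by
  induction L generalizing z with
  | nil => rfl
  | cons p L ih =>
    show avg1 p.1 p.2 (avgs L (fun y => ∑ i ∈ s, φ i y)) z =
      ∑ i ∈ s, avg1 p.1 p.2 (avgs L (φ i)) z
    unfold avg1
    rw [← Finset.sum_div, Finset.sum_comm]
    congr 1
    exact Finset.sum_congr rfl fun k _ => ih _

theorem avgs_trans (L : List (ℕ × V)) (φ : V → ℝ) (u z : V) :
    avgs L (fun y => φ (y + u)) z = avgs L φ (z + u) := by
  induction L generalizing z with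
  | nil => rfl
  | cons p L ih =>
    show avg1 p.1 p.2 (avgs L (fun y => φ (y + u))) z = avg1 p.1 p.2 (avgs L φ) (z + u)
    unfold avg1
    congr 1
    refine Finset.sum_congr rfl fun k _ => ?_
    rw [ih]
    congr 1
    abel

theorem avgs_append (L L' : List (ℕ × V)) (φ : V → ℝ) :
    avgs (L ++ L') φ = avgs L (avgs L' φ) := by
  induction L with
  | nil => rfl
  | cons p L ih =>
    show avg1 p.1 p.2 (avgs (L ++ L') φ) = avg1 p.1 p.2 (avgs L (avgs L' φ))
    rw [ih]

/-- near invariance is inherited -/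
theorem avgs_inherit (L : List (ℕ × V)) (φ : V → ℝ) (u : V) (κ : ℝ)
    (h : ∀ y, |φ (y + u) - φ y| ≤ κ) (z : V) : |avgs L φ (z + u) - avgs L φ z| ≤ κ := by
  rw [← avgs_trans, ← avgs_sub]
  exact avgs_bound L (fun y => φ (y + u) - φ y) κ h z

/-- near invariance under the averaging directions -/
theorem avgs_mem_shift (L : List (ℕ × V)) (N : ℕ) (v : V) (hp : (N, v) ∈ L) (φ : V → ℝ) (b : ℝ)
    (h : ∀ z, |φ z| ≤ b) (z : V) : |avgs L φ (z + v) - avgs L φ z| ≤ 2 * b / (2 * N + 1) := by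
  induction L generalizing z with
  | nil => simp at hp
  | cons p L ih =>
    rcases List.mem_cons.1 hp with h1 | h1
    · subst h1
      show |avg1 N v (avgs L φ) (z + v) - avg1 N v (avgs L φ) z| ≤ 2 * b / (2 * N + 1)
      unfold avg1
      rw [← sub_div, ← Finset.sum_sub_distrib]
      have e : ∑ k ∈ Finset.Icc (-(N : ℤ)) N,
          (avgs L φ (z + v + (k : ℝ) • v) - avgs L φ (z + (k : ℝ) • v)) =
          ∑ k ∈ Finset.Icc (-(N : ℤ)) N,
            ((fun k : ℤ => avgs L φ (z + (k : ℝ) • v)) (k + 1) -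
              (fun k : ℤ => avgs L φ (z + (k : ℝ) • v)) k) := by
        refine Finset.sum_congr rfl fun k _ => ?_
        congr 2
        push_cast
        rw [add_smul, one_smul]
        abel
      rw [e, ops_tele N (fun k : ℤ => avgs L φ (z + (k : ℝ) • v)), abs_div, abs_of_pos (ops_pos N)]
      refine div_le_div_of_nonneg_right ?_ (ops_pos N).le
      refine (abs_sub _ _).trans ?_
      have h2 := avgs_bound L φ b h (z + (((N : ℤ) + 1 : ℤ) : ℝ) • v)
      have h3 := avgs_bound L φ b h (z + ((-(N : ℤ) : ℤ) : ℝ) • v)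
      linarith
    · exact avgs_inherit [p] (avgs L φ) v _ (fun y => ih h1 y) z

private theorem ops_int_shift (g : V → ℝ) (κ : ℝ) (v : V) (hv : ∀ y, |g (y + v) - g y| ≤ κ)
    (a : ℤ) (z : V) : |g (z + (a : ℝ) • v) - g z| ≤ |(a : ℝ)| * κ := by
  have hn : ∀ (n : ℕ) (y : V), |g (y + (n : ℝ) • v) - g y| ≤ n * κ := by
    intro n
    induction n with
    | zero =>
      intro y
      simp
    | succ n ih =>
      intro y
      have h1 := hv (y + (n : ℝ) • v)
      have h2 := ih y
      have e : y + ((n + 1 : ℕ) : ℝ) • v = y + (n : ℝ) • v + v := by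
        push_cast
        rw [add_smul, one_smul]
        abel
      rw [e]
      calc |g (y + (n : ℝ) • v + v) - g y| ≤
            |g (y + (n : ℝ) • v + v) - g (y + (n : ℝ) • v)| + |g (y + (n : ℝ) • v) - g y| :=
            abs_sub_le _ _ _
        _ ≤ κ + n * κ := add_le_add h1 h2
        _ = ((n + 1 : ℕ) : ℝ) * κ := by
            push_cast
            ring
  obtain ⟨n, rfl | rfl⟩ := a.eq_nat_or_neg
  · have := hn n z
    simpa using this
  · have h1 := hn n (z - (n : ℝ) • v)
    rw [sub_add_cancel, abs_sub_comm] at h1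
    have e : z + ((-(n : ℤ) : ℤ) : ℝ) • v = z - (n : ℝ) • v := by
      push_cast
      rw [neg_smul, sub_eq_add_neg]
    rw [e]
    have e2 : |((-(n : ℤ) : ℤ) : ℝ)| = n := by
      push_cast
      rw [abs_neg, abs_of_nonneg (by positivity)]
    rw [e2]
    exact h1

/-- near invariance under single vectors gives near invariance under integer combinations -/
theorem shift_sum {d : ℕ} (g : V → ℝ) (κ : ℝ) (v : Fin d → V)
    (hv : ∀ l y, |g (y + v l) - g y| ≤ κ) (a : Fin d → ℤ) (z : V) :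
    |g (z + ∑ l, (a l : ℝ) • v l) - g z| ≤ (∑ l, |(a l : ℝ)|) * κ := by
  classical
  have key : ∀ (s : Finset (Fin d)) (y : V),
      |g (y + ∑ l ∈ s, (a l : ℝ) • v l) - g y| ≤ (∑ l ∈ s, |(a l : ℝ)|) * κ := by
    intro s
    induction s using Finset.induction_on with
    | empty =>
      intro y
      simp
    | insert l s hl ih =>
      intro y
      rw [Finset.sum_insert hl, Finset.sum_insert hl, ← add_assoc, add_mul]
      have h1 := ih (y + (a l : ℝ) • v l)
      have h2 := ops_int_shift g κ (v l) (hv l) (a l) y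
      calc |g (y + (a l : ℝ) • v l + ∑ l ∈ s, (a l : ℝ) • v l) - g y| ≤
            |g (y + (a l : ℝ) • v l + ∑ l ∈ s, (a l : ℝ) • v l) - g (y + (a l : ℝ) • v l)| +
              |g (y + (a l : ℝ) • v l) - g y| := abs_sub_le _ _ _
        _ ≤ |(a l : ℝ)| * κ + (∑ l ∈ s, |(a l : ℝ)|) * κ := by linarith
  exact key Finset.univ z

/-- replacing the directions `a - b` by `b` costs little when the function is nearly invariant under `a` -/
theorem avgs_swap {d : ℕ} (N : ℕ) (a b : Fin d → V) (κ : ℝ) (ψ : V → ℝ)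
    (h : ∀ l y, |ψ (y + a l) - ψ y| ≤ κ) (I : List (Fin d)) (z : V) :
    |avgs (I.map (fun l => (N, a l - b l))) ψ z - avgs (I.map (fun l => (N, b l))) ψ z|
      ≤ I.length * (N * κ) := by
  induction I generalizing z with
  | nil =>
    show |ψ z - ψ z| ≤ ((0 : ℕ) : ℝ) * (N * κ)
    simp
  | cons l I ih =>
    show |avg1 N (a l - b l) (avgs (I.map (fun l => (N, a l - b l))) ψ) z -
      avg1 N (b l) (avgs (I.map (fun l => (N, b l))) ψ) z| ≤ ((I.length + 1 : ℕ) : ℝ) * (N * κ)
    have hκ : 0 ≤ κ := (abs_nonneg _).trans (h l z)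
    rw [← ops_avg1_neg N (b l)]
    push_cast
    rw [add_mul, one_mul]
    refine ops_avg1_diff N _ _ _ _ z z _ fun k hk => ?_
    have h1 := ih (z + (k : ℝ) • -b l)
    have h2 := ops_int_shift (avgs (I.map (fun l => (N, a l - b l))) ψ) κ (a l)
      (fun y => avgs_inherit _ ψ (a l) κ (h l) y) k (z + (k : ℝ) • -b l)
    have e : z + (k : ℝ) • -b l + (k : ℝ) • a l = z + (k : ℝ) • (a l - b l) := by
      rw [smul_sub, smul_neg]
      abel
    rw [e] at h2
    have h3 : |(k : ℝ)| * κ ≤ N * κ := by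
      refine mul_le_mul_of_nonneg_right ?_ hκ
      have : ((|k| : ℤ) : ℝ) ≤ ((N : ℤ) : ℝ) := by exact_mod_cast hk
      simpa using this
    calc |avgs (I.map (fun l => (N, a l - b l))) ψ (z + (k : ℝ) • (a l - b l)) -
          avgs (I.map (fun l => (N, b l))) ψ (z + (k : ℝ) • -b l)| ≤
          |avgs (I.map (fun l => (N, a l - b l))) ψ (z + (k : ℝ) • (a l - b l)) -
            avgs (I.map (fun l => (N, a l - b l))) ψ (z + (k : ℝ) • -b l)| +
          |avgs (I.map (fun l => (N, a l - b l))) ψ (z + (k : ℝ) • -b l) -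
            avgs (I.map (fun l => (N, b l))) ψ (z + (k : ℝ) • -b l)| := abs_sub_le _ _ _
      _ ≤ I.length * (N * κ) + N * κ := by linarith

private theorem ops_nrm_smul {m : ℕ} (c : ℝ) (v : Vec m) : nrm (c • v) = |c| * nrm v := by
  unfold nrm
  rw [Finset.mul_sum]
  refine Finset.sum_congr rfl fun w _ => ?_
  rw [Pi.smul_apply, smul_eq_mul, abs_mul]

private theorem ops_nrm_nonneg {m : ℕ} (v : Vec m) : 0 ≤ nrm v :=
  Finset.sum_nonneg fun _ _ => abs_nonneg _

/-- displacement -/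
theorem avgs_disp {m : ℕ} (L : List (ℕ × Vec m)) (f : Vec m → ℝ) (hf : Lip f) (z : Vec m) :
    |avgs L f z - f z| ≤ (L.map (fun p => (p.1 : ℝ) * nrm p.2)).sum := by
  induction L generalizing z with
  | nil =>
    show |f z - f z| ≤ 0
    simp
  | cons p L ih =>
    rw [List.map_cons, List.sum_cons]
    have e : avg1 p.1 p.2 (fun _ => f z) z = f z := ops_avg1_const _ _ _ _
    show |avg1 p.1 p.2 (avgs L f) z - f z| ≤ _
    rw [← e]
    refine ops_avg1_diff p.1 _ _ _ _ z z _ fun k hk => ?_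
    have h1 := ih (z + (k : ℝ) • p.2)
    have h2 := hf (z + (k : ℝ) • p.2) z
    rw [add_sub_cancel_left, ops_nrm_smul] at h2
    have h3 : |(k : ℝ)| * nrm p.2 ≤ p.1 * nrm p.2 := by
      refine mul_le_mul_of_nonneg_right ?_ (ops_nrm_nonneg _)
      have : ((|k| : ℤ) : ℝ) ≤ ((p.1 : ℤ) : ℝ) := by exact_mod_cast hk
      simpa using this
    calc |avgs L f (z + (k : ℝ) • p.2) - f z| ≤
          |avgs L f (z + (k : ℝ) • p.2) - f (z + (k : ℝ) • p.2)| + |f (z + (k : ℝ) • p.2) - f z| :=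
          abs_sub_le _ _ _
      _ ≤ (p.1 : ℝ) * nrm p.2 + (L.map (fun p => (p.1 : ℝ) * nrm p.2)).sum := by linarith

theorem avgs_mono_reach (L : List (ℕ × V)) (φ ψ : V → ℝ) (z : V)
    (h : ∀ x, Rch L z x → φ x ≤ ψ x) : avgs L φ z ≤ avgs L ψ z := by
  induction L generalizing z with
  | nil => exact h z rfl
  | cons p L ih =>
    exact ops_avg1_mono p.1 p.2 _ _ z fun k hk => ih _ fun x hx => h x ⟨k, hk, hx⟩

theorem avgs_congr_reach (L : List (ℕ × V)) (φ ψ : V → ℝ) (z : V)
    (h : ∀ x, Rch L z x → φ x = ψ x) : avgs L φ z = avgs L ψ z :=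
  le_antisymm (avgs_mono_reach L φ ψ z fun x hx => (h x hx).le)
    (avgs_mono_reach L ψ φ z fun x hx => (h x hx).ge)

theorem avgs_const (L : List (ℕ × V)) (c : ℝ) (z : V) : avgs L (fun _ => c) z = c := by
  induction L generalizing z with
  | nil => rfl
  | cons p L ih =>
    show avg1 p.1 p.2 (avgs L (fun _ => c)) z = c
    have : avgs L (fun _ : V => c) = fun _ => c := funext ih
    rw [this, ops_avg1_const]

end Pool.PolyDim
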